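import Mathlib

/-!
# The spaces `C_0(X)` for countable locally compact Hausdorff spaces `X`
-/

set_option autoImplicit false

namespace Pool.Agent.H42.LI

open Filter Topology TopologicalSpace
open scoped ZeroAtInfty

variable {X : Type*} [TopologicalSpace X] [T2Space X] [LocallyCompactSpace X]

/-- Compact open neighbourhoods. -/
theorem exists_co [Countable X] {x : X} {U : Set X} (hU : IsOpen U) (hx : x ∈ U) :
    ∃ V : Set X, IsCompact V ∧ IsOpen V ∧ x ∈ V ∧ V ⊆ U := by
  have h1 : CompletelyRegularSpace X :=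
    (OnePoint.isOpenEmbedding_coe (X := X)).isInducing.completelyRegularSpace
  have h2 : TotallySeparatedSpace X := inferInstance
  have h3 : TotallyDisconnectedSpace X := inferInstance
  obtain ⟨s, hs, hxs, hsU⟩ := exists_compact_subset hU hx
  have hb := loc_compact_Haus_tot_disc_of_zero_dim (H := X)
  obtain ⟨V, hV, hxV, hVs⟩ := hb.exists_subset_of_mem_open hxs isOpen_interior
  exact ⟨V, hs.of_isClosed_subset hV.1 (hVs.trans interior_subset), hV.2, hxV,
    (hVs.trans interior_subset).trans hsU⟩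

/-- Disjoint compact open sets covering a compact set, subordinate to given neighbourhoods. -/
theorem exists_disjoint_cover [Countable X] {S : Set X} (hS : IsCompact S) (V : X → Set X)
    (hV : ∀ x, IsOpen (V x)) (hxV : ∀ x, x ∈ V x) :
    ∃ (t : Finset X) (W : X → Set X), (∀ x, IsCompact (W x) ∧ IsOpen (W x) ∧ W x ⊆ V x) ∧
      (∀ x ∈ t, ∀ y ∈ t, x ≠ y → Disjoint (W x) (W y)) ∧ S ⊆ ⋃ x ∈ t, W x := by
  classical
  choose V' hV'c hV'o hxV' hV'V using fun x => exists_co (hV x) (hxV x)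
  obtain ⟨t, -, htc⟩ := hS.elim_nhds_subcover V' (fun x _ => (hV'o x).mem_nhds (hxV' x))
  obtain ⟨enc, henc⟩ := Countable.exists_injective_nat X
  let W : X → Set X := fun x => V' x \ ⋃ y ∈ t.filter (fun y => enc y < enc x), V' y
  have hU : ∀ x, IsClopen (⋃ y ∈ t.filter (fun y => enc y < enc x), V' y) := by
    intro x
    refine ⟨?_, isOpen_biUnion fun y _ => hV'o y⟩
    exact Set.Finite.isClosed_biUnion (Finset.finite_toSet _) fun y _ => (hV'c y).isClosed
  refine ⟨t, W, fun x => ⟨?_, ?_, ?_⟩, ?_, ?_⟩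
  · exact (hV'c x).diff (hU x).2
  · exact (hV'o x).sdiff (hU x).1
  · exact Set.sdiff_subset.trans (hV'V x)
  · intro x hx y hy hxy
    have key : ∀ x ∈ t, ∀ y, enc x < enc y → Disjoint (W x) (W y) := by
      intro x hx y hlt
      rw [Set.disjoint_left]
      intro z hzx hzy
      apply hzy.2
      simp only [Set.mem_iUnion]
      exact ⟨x, Finset.mem_filter.2 ⟨hx, hlt⟩, hzx.1⟩
    rcases lt_trichotomy (enc x) (enc y) with h | h | h
    · exact key x hx y h
    · exact absurd (henc h) hxy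
    · exact (key y hy x h).symm
  · intro z hz
    have hz' := htc hz
    simp only [Set.mem_iUnion] at hz'
    obtain ⟨y, hy, hzy⟩ := hz'
    have hne : (t.filter fun y => z ∈ V' y).Nonempty := ⟨y, Finset.mem_filter.2 ⟨hy, hzy⟩⟩
    obtain ⟨x, hx, hmin⟩ := Finset.exists_min_image _ enc hne
    rw [Finset.mem_filter] at hx
    simp only [Set.mem_iUnion]
    refine ⟨x, hx.1, hx.2, ?_⟩
    simp only [Set.mem_iUnion]
    rintro ⟨w, hw, hzw⟩
    rw [Finset.mem_filter] at hw
    have := hmin w (Finset.mem_filter.2 ⟨hw.1, hzw⟩)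
    omega

/-- Compact subsets of open sets are contained in compact open subsets. -/
theorem exists_co_between [Countable X] {S O : Set X} (hS : IsCompact S) (hO : IsOpen O)
    (hSO : S ⊆ O) : ∃ V : Set X, IsCompact V ∧ IsOpen V ∧ S ⊆ V ∧ V ⊆ O := by
  classical
  choose! V hVc hVo hxV hVO using fun (x : X) (hx : x ∈ O) => exists_co hO hx
  obtain ⟨t, hts, htc⟩ := hS.elim_nhds_subcover V
    (fun x hx => (hVo x (hSO hx)).mem_nhds (hxV x (hSO hx)))
  refine ⟨⋃ x ∈ t, V x, ?_, ?_, htc, ?_⟩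
  · exact t.finite_toSet.isCompact_biUnion fun x hx => hVc x (hSO (hts x hx))
  · exact isOpen_biUnion fun x hx => hVo x (hSO (hts x hx))
  · exact Set.iUnion₂_subset fun x hx => hVO x (hSO (hts x hx))

/-- There are only countably many compact open sets. -/
theorem countable_co [Countable X] : {V : Set X | IsCompact V ∧ IsOpen V}.Countable := by
  classical
  have hsep : ∀ p : X × X, ∃ V : Set X, IsCompact V ∧ IsOpen V ∧ p.1 ∈ V ∧
      (p.1 ≠ p.2 → p.2 ∉ V) := by
    rintro ⟨x, y⟩
    by_cases hxy : x = y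
    · obtain ⟨V, h1, h2, h3, -⟩ := exists_co (x := x) isOpen_univ (Set.mem_univ x)
      exact ⟨V, h1, h2, h3, fun h => absurd hxy h⟩
    · obtain ⟨V, h1, h2, h3, h4⟩ := exists_co (x := x) (U := {y}ᶜ) isOpen_compl_singleton hxy
      exact ⟨V, h1, h2, h3, fun _ hy => h4 hy rfl⟩
  choose V hVc hVo hxV hyV using hsep
  refine (Set.countable_range fun s : Finset (Finset (X × X)) =>
    ⋃ u ∈ s, ⋂ p ∈ u, V p).mono ?_
  rintro W ⟨hWc, hWo⟩
  have hx : ∀ x ∈ W, ∃ u : Finset (X × X), x ∈ ⋂ p ∈ u, V p ∧ (⋂ p ∈ u, V p) ⊆ W ∧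
      IsOpen (⋂ p ∈ u, V p) := by
    intro x hxW
    have hcomp : IsCompact (V (x, x) \ W) := (hVc _).diff hWo
    obtain ⟨t, hts, htc⟩ := hcomp.elim_nhds_subcover (fun y => (V (x, y))ᶜ) (fun y hy => by
      refine (hVc _).isClosed.isOpen_compl.mem_nhds ?_
      refine hyV (x, y) ?_
      rintro h
      exact hy.2 (by have : x = y := h; rwa [← this]))
    refine ⟨insert (x, x) (t.image fun y => (x, y)), ?_, ?_, ?_⟩
    · simp only [Set.mem_iInter]
      intro p hp
      rcases Finset.mem_insert.1 hp with h | h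
      · rw [h]; exact hxV _
      · obtain ⟨y, _, rfl⟩ := Finset.mem_image.1 h
        exact hxV _
    · intro z hz
      simp only [Set.mem_iInter] at hz
      by_contra hzW
      have h1 := htc ⟨hz (x, x) (Finset.mem_insert_self _ _), hzW⟩
      simp only [Set.mem_iUnion] at h1
      obtain ⟨y, hy, hzy⟩ := h1
      exact hzy (hz (x, y) (Finset.mem_insert_of_mem (Finset.mem_image_of_mem _ hy)))
    · exact isOpen_biInter_finset fun p _ => hVo p
  choose! u hu1 hu2 hu3 using hx
  obtain ⟨t, hts, htc⟩ := hWc.elim_nhds_subcover (fun x => ⋂ p ∈ u x, V p)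
    (fun x hx => (hu3 x hx).mem_nhds (hu1 x hx))
  refine ⟨t.image u, ?_⟩
  ext z
  simp only [Finset.mem_image, Set.iUnion_exists, Set.biUnion_and', Set.iUnion_iUnion_eq_right]
  constructor
  · intro hz
    simp only [Set.mem_iUnion] at hz
    obtain ⟨x, hx, hzx⟩ := hz
    exact hu2 x (hts x hx) hzx
  · intro hz
    exact htc hz

/-- The space `C_0(X)` of the continuous functions on `X` which vanish at infinity. -/
def CX (X : Type*) [TopologicalSpace X] (𝕜 : Type*) [RCLike 𝕜] : Type _ := C₀(X, 𝕜)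

section functions

variable {𝕜 : Type*} [RCLike 𝕜]

noncomputable instance : NormedAddCommGroup (CX X 𝕜) :=
  inferInstanceAs (NormedAddCommGroup C₀(X, 𝕜))

noncomputable instance : NormedSpace 𝕜 (CX X 𝕜) := inferInstanceAs (NormedSpace 𝕜 C₀(X, 𝕜))

instance : CompleteSpace (CX X 𝕜) := inferInstanceAs (CompleteSpace C₀(X, 𝕜))

instance : FunLike (CX X 𝕜) X 𝕜 := inferInstanceAs (FunLike C₀(X, 𝕜) X 𝕜)

omit [T2Space X] [LocallyCompactSpace X] in
theorem cx_ext {f g : CX X 𝕜} (h : ∀ x, f x = g x) : f = g := DFunLike.ext f g h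

omit [T2Space X] [LocallyCompactSpace X] in
theorem cx_add_apply (f g : CX X 𝕜) (x : X) : (f + g) x = f x + g x := rfl

omit [T2Space X] [LocallyCompactSpace X] in
theorem cx_sub_apply (f g : CX X 𝕜) (x : X) : (f - g) x = f x - g x := rfl

omit [T2Space X] [LocallyCompactSpace X] in
theorem cx_smul_apply (c : 𝕜) (f : CX X 𝕜) (x : X) : (c • f) x = c * f x := rfl

omit [T2Space X] [LocallyCompactSpace X] in
theorem cx_zero_apply (x : X) : (0 : CX X 𝕜) x = 0 := rfl

omit [T2Space X] [LocallyCompactSpace X] in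
theorem cx_continuous (f : CX X 𝕜) : Continuous fun x => f x := (f : C₀(X, 𝕜)).continuous_toFun

/-- Evaluation at a point. -/
noncomputable def evx (𝕜 : Type*) [RCLike 𝕜] (x : X) : CX X 𝕜 →+ 𝕜 :=
  ⟨⟨fun f => f x, rfl⟩, fun _ _ => rfl⟩

omit [T2Space X] [LocallyCompactSpace X] in
theorem cx_sum_apply {ι : Type*} (s : Finset ι) (f : ι → CX X 𝕜) (x : X) :
    (∑ i ∈ s, f i) x = ∑ i ∈ s, f i x := map_sum (evx 𝕜 x) f s

omit [T2Space X] [LocallyCompactSpace X] in
theorem cx_norm_coe_le (f : CX X 𝕜) (x : X) : ‖f x‖ ≤ ‖f‖ := by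
  have h : ‖f‖ = ‖ZeroAtInftyContinuousMap.toBCF (f : C₀(X, 𝕜))‖ :=
    ZeroAtInftyContinuousMap.norm_toBCF_eq_norm.symm
  rw [h]
  exact (ZeroAtInftyContinuousMap.toBCF (f : C₀(X, 𝕜))).norm_coe_le_norm x

omit [T2Space X] [LocallyCompactSpace X] in
theorem cx_norm_le {f : CX X 𝕜} {C : ℝ} (hC : 0 ≤ C) (h : ∀ x, ‖f x‖ ≤ C) : ‖f‖ ≤ C := by
  have h' : ‖f‖ = ‖ZeroAtInftyContinuousMap.toBCF (f : C₀(X, 𝕜))‖ :=
    ZeroAtInftyContinuousMap.norm_toBCF_eq_norm.symm
  rw [h']
  exact (BoundedContinuousFunction.norm_le hC).2 h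

/-- `CX X 𝕜` is the space `C₀(X, 𝕜)` of Mathlib. -/
noncomputable def cxEquiv (X : Type*) [TopologicalSpace X] (𝕜 : Type*) [RCLike 𝕜] :
    CX X 𝕜 ≃L[𝕜] C₀(X, 𝕜) := ContinuousLinearEquiv.refl 𝕜 C₀(X, 𝕜)

omit [T2Space X] [LocallyCompactSpace X] in
theorem isCompact_ge (f : CX X 𝕜) {ε : ℝ} (hε : 0 < ε) : IsCompact {x | ε ≤ ‖f x‖} := by
  have h1 : ∀ᶠ x in cocompact X, ‖f x‖ < ε := by
    have := ((f : C₀(X, 𝕜)).zero_at_infty').norm
    rw [norm_zero] at this
    exact this.eventually (gt_mem_nhds hε)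
  obtain ⟨K, hK, hKs⟩ := mem_cocompact.1 h1
  refine hK.of_isClosed_subset (isClosed_le continuous_const (cx_continuous f).norm) ?_
  intro x hx
  by_contra hxK
  have := hKs hxK
  have hx' : ε ≤ ‖f x‖ := hx
  have h2 : ‖f x‖ < ε := this
  linarith

omit [LocallyCompactSpace X] in
theorem frontier_co {V : Set X} (h : IsCompact V ∧ IsOpen V) : frontier V = ∅ :=
  isClopen_iff_frontier_eq_empty.1 ⟨h.1.isClosed, h.2⟩

open Classical in
/-- Multiplication by the characteristic function of a compact open set `V` (`0` for other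
sets). -/
noncomputable def cut (𝕜 : Type*) [RCLike 𝕜] (V : Set X) : CX X 𝕜 →L[𝕜] CX X 𝕜 :=
  if h : IsCompact V ∧ IsOpen V then
    LinearMap.mkContinuous
    { toFun := fun f => (show CX X 𝕜 from ({
        toFun := V.indicator f
        continuous_toFun := (cx_continuous f).indicator (fun x hx => by
          rw [frontier_co h] at hx
          exact absurd hx (Set.notMem_empty x))
        zero_at_infty' := by
          refine tendsto_const_nhds.congr' ?_
          filter_upwards [h.1.compl_mem_cocompact] with x hx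
          exact (Set.indicator_of_notMem hx _).symm } : C₀(X, 𝕜)))
      map_add' := fun f g => cx_ext fun x => by
        change V.indicator (fun x => (f + g) x) x = V.indicator f x + V.indicator g x
        by_cases hx : x ∈ V
        · rw [Set.indicator_of_mem hx, Set.indicator_of_mem hx, Set.indicator_of_mem hx]; rfl
        · rw [Set.indicator_of_notMem hx, Set.indicator_of_notMem hx,
            Set.indicator_of_notMem hx, add_zero]
      map_smul' := fun c f => cx_ext fun x => by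
        change V.indicator (fun x => (c • f) x) x = c * V.indicator f x
        by_cases hx : x ∈ V
        · rw [Set.indicator_of_mem hx, Set.indicator_of_mem hx]; rfl
        · rw [Set.indicator_of_notMem hx, Set.indicator_of_notMem hx, mul_zero] } 1
      (fun f => by
        rw [one_mul]
        refine cx_norm_le (norm_nonneg _) fun x => ?_
        change ‖V.indicator f x‖ ≤ ‖f‖
        by_cases hx : x ∈ V
        · rw [Set.indicator_of_mem hx]; exact cx_norm_coe_le f x
        · rw [Set.indicator_of_notMem hx, norm_zero]; exact norm_nonneg _)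
  else 0

open Classical in
/-- The characteristic function of a compact open set (and `0` for other sets). -/
noncomputable def one (𝕜 : Type*) [RCLike 𝕜] (V : Set X) : CX X 𝕜 :=
  if h : IsCompact V ∧ IsOpen V then
    (show CX X 𝕜 from ({
      toFun := V.indicator fun _ => 1
      continuous_toFun := continuous_const.indicator (fun x hx => by
        rw [frontier_co h] at hx
        exact absurd hx (Set.notMem_empty x))
      zero_at_infty' := by
        refine tendsto_const_nhds.congr' ?_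
        filter_upwards [h.1.compl_mem_cocompact] with x hx
        exact (Set.indicator_of_notMem hx _).symm } : C₀(X, 𝕜)))
  else 0

omit [LocallyCompactSpace X] in
theorem one_apply {V : Set X} (hc : IsCompact V) (ho : IsOpen V) (x : X) :
    one 𝕜 V x = V.indicator (fun _ => (1 : 𝕜)) x := by
  unfold one
  rw [dif_pos ⟨hc, ho⟩]
  rfl

omit [LocallyCompactSpace X] in
theorem cut_apply {V : Set X} (hc : IsCompact V) (ho : IsOpen V) (f : CX X 𝕜) (x : X) :
    cut 𝕜 V f x = V.indicator f x := by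
  unfold cut
  rw [dif_pos ⟨hc, ho⟩]
  rfl

omit [LocallyCompactSpace X] in
theorem one_of_mem {V : Set X} (hc : IsCompact V) (ho : IsOpen V) {x : X} (hx : x ∈ V) :
    one 𝕜 V x = 1 := by
  rw [one_apply hc ho, Set.indicator_of_mem hx]

omit [LocallyCompactSpace X] in
theorem one_of_notMem {V : Set X} (hc : IsCompact V) (ho : IsOpen V) {x : X} (hx : x ∉ V) :
    one 𝕜 V x = 0 := by
  rw [one_apply hc ho, Set.indicator_of_notMem hx]

omit [LocallyCompactSpace X] in
theorem cut_of_mem {V : Set X} (hc : IsCompact V) (ho : IsOpen V) (f : CX X 𝕜) {x : X}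
    (hx : x ∈ V) : cut 𝕜 V f x = f x := by
  rw [cut_apply hc ho, Set.indicator_of_mem hx]

omit [LocallyCompactSpace X] in
theorem cut_of_notMem {V : Set X} (hc : IsCompact V) (ho : IsOpen V) (f : CX X 𝕜) {x : X}
    (hx : x ∉ V) : cut 𝕜 V f x = 0 := by
  rw [cut_apply hc ho, Set.indicator_of_notMem hx]

/-- Finite rank approximations of the identity through `ℓ_∞^N`. -/
theorem exists_approx [Countable X] (S : Finset (CX X 𝕜)) (ε : ℝ) (hε : 0 < ε) :
    ∃ (N : ℕ) (a : CX X 𝕜 →L[𝕜] (Fin N → 𝕜)) (b : (Fin N → 𝕜) →L[𝕜] CX X 𝕜),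
      ‖a‖ ≤ 1 ∧ ‖b‖ ≤ 1 ∧ (∀ f ∈ S, ‖b (a f) - f‖ ≤ ε) ∧
      ∀ c, b c ∈ Submodule.span 𝕜 (Set.range fun V : {V : Set X | IsCompact V ∧ IsOpen V} =>
        one 𝕜 (V : Set X)) := by
  classical
  have hK : IsCompact (⋃ f ∈ S, {x | ε ≤ ‖(f : CX X 𝕜) x‖}) :=
    S.finite_toSet.isCompact_biUnion fun f _ => isCompact_ge f hε
  obtain ⟨t, W, hW, hdis, hcov⟩ := exists_disjoint_cover hK
    (fun x => ⋂ f ∈ S, {y | ‖(f : CX X 𝕜) y - f x‖ < ε / 2})
    (fun x => isOpen_biInter_finset fun f _ =>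
      isOpen_lt ((cx_continuous f).sub continuous_const).norm continuous_const)
    (fun x => by
      simp only [Set.mem_iInter]
      intro f _
      change ‖f x - f x‖ < ε / 2
      rw [sub_self, norm_zero]
      exact half_pos hε)
  have hWV : ∀ x y, y ∈ W x → ∀ f ∈ S, ‖(f : CX X 𝕜) y - f x‖ < ε / 2 := by
    intro x y hy f hf
    have := (hW x).2.2 hy
    simp only [Set.mem_iInter] at this
    exact this f hf
  let e := t.equivFin
  -- the points of evaluation
  have hpt : ∀ i : Fin t.card, ∃ p : CX X 𝕜 →L[𝕜] 𝕜, ‖p‖ ≤ 1 ∧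
      ∀ y ∈ W (e.symm i : X), ∀ f ∈ S, ‖p f - f y‖ ≤ ε := by
    intro i
    rcases (W (e.symm i : X)).eq_empty_or_nonempty with h | ⟨x, hx⟩
    · refine ⟨0, norm_zero.le.trans zero_le_one, fun y hy => ?_⟩
      rw [h] at hy
      exact absurd hy (Set.notMem_empty y)
    · let p : CX X 𝕜 →L[𝕜] 𝕜 := LinearMap.mkContinuous
        { toFun := fun f => f x
          map_add' := fun _ _ => rfl
          map_smul' := fun _ _ => rfl } 1 (fun f => by
            rw [one_mul]; exact cx_norm_coe_le f x)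
      refine ⟨p, LinearMap.mkContinuous_norm_le _ zero_le_one _, fun y hy f hf => ?_⟩
      change ‖f x - f y‖ ≤ ε
      have h1 := hWV _ x hx f hf
      have h2 := hWV _ y hy f hf
      have h3 : f x - f y = (f x - f (e.symm i : X)) - (f y - f (e.symm i : X)) := by ring
      rw [h3]
      refine (norm_sub_le _ _).trans ?_
      linarith
  choose p hp1 hp2 using hpt
  let a : CX X 𝕜 →L[𝕜] (Fin t.card → 𝕜) := ContinuousLinearMap.pi p
  have ha : ∀ f i, a f i = p i f := fun f i => rfl
  let b₀ : (Fin t.card → 𝕜) →ₗ[𝕜] CX X 𝕜 :=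
    ∑ i, (LinearMap.proj i : (Fin t.card → 𝕜) →ₗ[𝕜] 𝕜).smulRight (one 𝕜 (W (e.symm i : X)))
  have hb₀s : ∀ c, b₀ c = ∑ i, ((LinearMap.proj i : (Fin t.card → 𝕜) →ₗ[𝕜] 𝕜).smulRight
      (one 𝕜 (W (e.symm i : X)))) c := fun c => LinearMap.sum_apply _ _ _
  have hb₀ : ∀ c x, b₀ c x = ∑ i, c i * one 𝕜 (W (e.symm i : X)) x := by
    intro c x
    rw [hb₀s, cx_sum_apply]
    exact Finset.sum_congr rfl fun i _ => rfl
  have hbi : ∀ c i x, x ∈ W (e.symm i : X) → b₀ c x = c i := by
    intro c i x hx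
    rw [hb₀, Finset.sum_eq_single i]
    · rw [one_of_mem (hW _).1 (hW _).2.1 hx, mul_one]
    · intro j _ hji
      rw [one_of_notMem (hW _).1 (hW _).2.1, mul_zero]
      intro hxj
      have hne : (e.symm j : X) ≠ (e.symm i : X) := by
        intro h
        exact hji (e.symm.injective (Subtype.ext h))
      exact (Set.disjoint_left.1 (hdis _ (e.symm j).2 _ (e.symm i).2 hne)) hxj hx
    · intro h
      exact absurd (Finset.mem_univ i) h
  have hb0 : ∀ c x, (∀ i, x ∉ W (e.symm i : X)) → b₀ c x = 0 := by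
    intro c x hx
    rw [hb₀]
    exact Finset.sum_eq_zero fun i _ => by
      rw [one_of_notMem (hW _).1 (hW _).2.1 (hx i), mul_zero]
  let b : (Fin t.card → 𝕜) →L[𝕜] CX X 𝕜 := b₀.mkContinuous 1 (fun c => by
    rw [one_mul]
    refine cx_norm_le (norm_nonneg _) fun x => ?_
    by_cases h : ∃ i, x ∈ W (e.symm i : X)
    · obtain ⟨i, hi⟩ := h
      rw [hbi c i x hi]
      exact norm_le_pi_norm c i
    · push Not at h
      rw [hb0 c x h, norm_zero]
      exact norm_nonneg _)
  have hb : ∀ c, b c = b₀ c := fun c => rfl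
  refine ⟨t.card, a, b, ?_, LinearMap.mkContinuous_norm_le _ zero_le_one _, ?_, ?_⟩
  · refine ContinuousLinearMap.opNorm_le_bound _ zero_le_one fun f => ?_
    rw [one_mul]
    refine (pi_norm_le_iff_of_nonneg (norm_nonneg _)).2 fun i => ?_
    rw [ha]
    exact ((p i).le_opNorm f).trans (by
      have := mul_le_mul_of_nonneg_right (hp1 i) (norm_nonneg f)
      rwa [one_mul] at this)
  · intro f hf
    refine cx_norm_le hε.le fun x => ?_
    rw [cx_sub_apply, hb]
    by_cases h : ∃ i, x ∈ W (e.symm i : X)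
    · obtain ⟨i, hi⟩ := h
      rw [hbi _ i x hi, ha]
      exact hp2 i x hi f hf
    · push Not at h
      rw [hb0 _ x h, zero_sub, norm_neg]
      by_contra hcon
      push Not at hcon
      have h1 : x ∈ ⋃ f ∈ S, {x | ε ≤ ‖(f : CX X 𝕜) x‖} := by
        simp only [Set.mem_iUnion]
        exact ⟨f, hf, hcon.le⟩
      have h2 := hcov h1
      simp only [Set.mem_iUnion] at h2
      obtain ⟨y, hy, hxy⟩ := h2
      refine h (e ⟨y, hy⟩) ?_
      rw [Equiv.symm_apply_apply]
      exact hxy
  · intro c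
    rw [hb, hb₀s]
    refine Submodule.sum_mem _ fun i _ => Submodule.smul_mem _ _ (Submodule.subset_span ?_)
    exact ⟨⟨W (e.symm i : X), (hW _).1, (hW _).2.1⟩, rfl⟩

theorem separable_cx [Countable X] : SeparableSpace (CX X 𝕜) := by
  have hc : Countable {V : Set X | IsCompact V ∧ IsOpen V} := countable_co.to_subtype
  have h1 : (Set.range fun V : {V : Set X | IsCompact V ∧ IsOpen V} =>
      one 𝕜 (V : Set X)).Countable := Set.countable_range _
  have h2 := (h1.isSeparable.span (R := 𝕜)).closure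
  have h3 : closure (Submodule.span 𝕜 (Set.range fun V : {V : Set X | IsCompact V ∧ IsOpen V} =>
      one 𝕜 (V : Set X)) : Set (CX X 𝕜)) = Set.univ := by
    rw [Set.eq_univ_iff_forall]
    intro f
    rw [Metric.mem_closure_iff]
    intro ε hε
    obtain ⟨N, a, b, -, -, h, hs⟩ := exists_approx (𝕜 := 𝕜) {f} (ε / 2) (half_pos hε)
    refine ⟨b (a f), hs _, ?_⟩
    rw [dist_comm, dist_eq_norm]
    have := h f (Finset.mem_singleton_self f)
    linarith
  rw [h3] at h2
  exact isSeparable_univ_iff.1 h2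

end functions

end Pool.Agent.H42.LI
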