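import Pool.Agent.H42.NP.Defs
import Pool.Agent.H42.LI.CX

/-!
# `ℒ_∞`-spaces by approximation; `C_0(X)` is an `ℒ_∞`-space for countable `X`
-/

set_option autoImplicit false

namespace Pool.Agent.H42.LI

open Filter Topology Pool.Agent.H42.NP

variable {𝕜 : Type*} [RCLike 𝕜] {E : Type*} [NormedAddCommGroup E] [NormedSpace 𝕜 E]

theorem isLInfty_of_approx [CompleteSpace E]
    (h : ∀ (S : Finset E) (ε : ℝ), 0 < ε → ∃ (N : ℕ) (a : E →L[𝕜] (Fin N → 𝕜))
      (b : (Fin N → 𝕜) →L[𝕜] E), ‖a‖ ≤ 1 ∧ ‖b‖ ≤ 1 ∧ ∀ f ∈ S, ‖b (a f) - f‖ ≤ ε) :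
    IsLInfty 𝕜 E := by
  classical
  refine ⟨2, fun G hG => ?_⟩
  obtain ⟨π, hπ⟩ := Submodule.ClosedComplemented.of_finiteDimensional G
  let v := Module.finBasis 𝕜 G
  obtain ⟨C, hC, hvC⟩ := v.exists_opNorm_le (F := E)
  set δ : ℝ := 1 / (2 * (‖π‖ + 1)) with hδ
  have hδ0 : 0 < δ := by positivity
  obtain ⟨N, a, b, ha, hb, hab⟩ := h (Finset.univ.image fun i => ((v i : G) : E)) (δ / C)
    (by positivity)
  let D : G →L[𝕜] E := (b.comp a).comp G.subtypeL - G.subtypeL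
  have hDg : ∀ g : G, D g = b (a g) - g := fun g => rfl
  have hD : ‖D‖ ≤ δ := by
    have h1 : ‖D‖ ≤ C * (δ / C) := hvC (by positivity) fun i => by
      rw [hDg]
      exact hab _ (Finset.mem_image.2 ⟨i, Finset.mem_univ i, rfl⟩)
    refine h1.trans (le_of_eq ?_)
    field_simp
  have hDπ : ‖D.comp π‖ ≤ 1 / 2 := by
    refine (ContinuousLinearMap.opNorm_comp_le _ _).trans ?_
    calc ‖D‖ * ‖π‖ ≤ δ * ‖π‖ := by gcongr
      _ ≤ δ * (‖π‖ + 1) := by gcongr; linarith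
      _ = 1 / 2 := by rw [hδ]; field_simp
  let u := Units.oneSub (-(D.comp π)) (by rw [norm_neg]; exact lt_of_le_of_lt hDπ (by norm_num))
  have hu : (u : E →L[𝕜] E) = 1 + D.comp π := by
    change 1 - (-(D.comp π)) = 1 + D.comp π
    rw [sub_neg_eq_add]
  let L : E ≃L[𝕜] E := ContinuousLinearEquiv.unitsEquiv 𝕜 E u
  have hL : ∀ x, L x = x + D (π x) := by
    intro x
    change (u : E →L[𝕜] E) x = _
    rw [hu]
    rfl
  have hLn : ∀ x, ‖L.symm x‖ ≤ 2 * ‖x‖ := by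
    intro x
    have h1 := hL (L.symm x)
    rw [L.apply_symm_apply] at h1
    have h2 : L.symm x = x - D (π (L.symm x)) := by
      rw [eq_sub_iff_add_eq]; exact h1.symm
    have h3 : ‖D (π (L.symm x))‖ ≤ 1 / 2 * ‖L.symm x‖ :=
      ((D.comp π).le_opNorm _).trans (mul_le_mul_of_nonneg_right hDπ (norm_nonneg _))
    have h4 : ‖L.symm x‖ ≤ ‖x‖ + ‖D (π (L.symm x))‖ := by
      calc ‖L.symm x‖ = ‖x - D (π (L.symm x))‖ := by rw [← h2]
        _ ≤ _ := norm_sub_le _ _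
    linarith
  refine ⟨N, a.comp G.subtypeL, (L.symm : E →L[𝕜] E).comp b, ?_, fun f => ?_⟩
  · have h1 : ‖a.comp G.subtypeL‖ ≤ 1 := by
      refine ContinuousLinearMap.opNorm_le_bound _ zero_le_one fun x => ?_
      rw [one_mul]
      have := (a.le_opNorm (x : E)).trans (mul_le_mul_of_nonneg_right ha (norm_nonneg _))
      rw [one_mul] at this
      exact this
    have h2 : ‖(L.symm : E →L[𝕜] E).comp b‖ ≤ 2 := by
      refine ContinuousLinearMap.opNorm_le_bound _ zero_le_two fun x => ?_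
      refine (hLn (b x)).trans ?_
      have := (b.le_opNorm x).trans (mul_le_mul_of_nonneg_right hb (norm_nonneg _))
      rw [one_mul] at this
      linarith
    calc _ ≤ 1 * 2 := mul_le_mul h1 h2 (norm_nonneg _) zero_le_one
      _ = 2 := by norm_num
  · change L.symm (b (a f)) = f
    rw [L.symm_apply_eq, hL, hπ, hDg]
    abel

section

variable {X : Type*} [TopologicalSpace X] [T2Space X] [LocallyCompactSpace X] [Countable X]

theorem isLInfty_cx : IsLInfty 𝕜 (CX X 𝕜) :=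
  isLInfty_of_approx fun S ε hε => by
    obtain ⟨N, a, b, h1, h2, h3, -⟩ := exists_approx (𝕜 := 𝕜) S ε hε
    exact ⟨N, a, b, h1, h2, h3⟩

end

end Pool.Agent.H42.LI
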