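import Mathlib

/-!
# A basis of `ℓ_∞^N` which begins with a given vector
-/

set_option autoImplicit false

namespace Pool.Agent.H42.LI

variable {𝕜 : Type*} [RCLike 𝕜]

/-- Every nonzero vector of `ℓ_∞^N` is the first vector of a basis with basis constant `1`. -/
theorem exists_block {N : ℕ} (s : Fin N → 𝕜) (hs : s ≠ 0) :
    ∃ U : ℕ → (Fin N → 𝕜), 0 < N ∧ U 0 = s ∧ (∀ t < N, U t ≠ 0) ∧
      (∀ (a : ℕ → 𝕜) r, r ≤ N → ‖∑ t ∈ Finset.range r, a t • U t‖ ≤
        ‖∑ t ∈ Finset.range N, a t • U t‖) ∧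
      (∀ δ : Fin N → 𝕜, ∃ a : ℕ → 𝕜, δ = ∑ t ∈ Finset.range N, a t • U t) := by
  classical
  obtain ⟨i0, hi0⟩ : ∃ i, s i ≠ 0 := Function.ne_iff.mp hs
  have hN : 0 < N := i0.pos
  have : NeZero N := ⟨hN.ne'⟩
  have : Nonempty (Fin N) := ⟨i0⟩
  obtain ⟨l, hl⟩ : ∃ l, ∀ i, ‖s i‖ ≤ ‖s l‖ := Finite.exists_max (fun i => ‖s i‖)
  have hsl : s l ≠ 0 := by
    intro h
    have := hl i0
    rw [h, norm_zero] at this
    exact hi0 (norm_le_zero_iff.1 this)
  let τ : Equiv.Perm (Fin N) := Equiv.swap 0 l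
  have hself : ∀ i, τ (τ i) = i := fun i => by
    rw [← Equiv.Perm.mul_apply, Equiv.swap_mul_self, Equiv.Perm.one_apply]
  let U : ℕ → (Fin N → 𝕜) := fun t => if t = 0 then s else
    if h : t < N then Pi.single (τ ⟨t, h⟩) 1 else 0
  have hU0 : U 0 = s := if_pos rfl
  have hUt : ∀ t (h : t < N), t ≠ 0 → U t = Pi.single (τ ⟨t, h⟩) 1 := by
    intro t h h0
    simp only [U]
    rw [if_neg h0, dif_pos h]
  -- the coordinates of the partial sums
  have hsum : ∀ (a : ℕ → 𝕜) r, r ≤ N → 0 < r → ∀ i : Fin N,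
      (∑ t ∈ Finset.range r, a t • U t) i =
        a 0 * s i + (if i ≠ l ∧ ((τ i : Fin N) : ℕ) < r then a (τ i : Fin N) else 0) := by
    intro a r hr hr0 i
    obtain ⟨r, rfl⟩ : ∃ k, r = k + 1 := ⟨r - 1, by omega⟩
    rw [Finset.sum_range_succ', hU0, Pi.add_apply, Finset.sum_apply, add_comm]
    congr 1
    have hττ : τ (τ i) = i := hself i
    have h1 : ∀ t ∈ Finset.range r, (a (t + 1) • U (t + 1)) i =
        if t + 1 = ((τ i : Fin N) : ℕ) then a (t + 1) else 0 := by
      intro t ht
      have htr := Finset.mem_range.1 ht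
      rw [hUt (t + 1) (by omega) (by omega), Pi.smul_apply, Pi.single_apply, smul_eq_mul]
      by_cases h : t + 1 = ((τ i : Fin N) : ℕ)
      · rw [if_pos h, if_pos, mul_one]
        have : (⟨t + 1, by omega⟩ : Fin N) = τ i := Fin.ext h
        rw [this, hττ]
      · rw [if_neg h, if_neg, mul_zero]
        intro h2
        apply h
        rw [h2]
        have : τ (τ (⟨t + 1, by omega⟩ : Fin N)) = ⟨t + 1, by omega⟩ := hself _
        rw [this]
    rw [Finset.sum_congr rfl h1]
    by_cases h : i = l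
    · rw [if_neg (fun h' => h'.1 h)]
      have h2 : ((τ i : Fin N) : ℕ) = 0 := by
        rw [h, Equiv.swap_apply_right]; rfl
      rw [h2]
      exact Finset.sum_eq_zero fun t _ => if_neg (by omega)
    · have h2 : ((τ i : Fin N) : ℕ) ≠ 0 := by
        intro h3
        apply h
        have h4 : τ i = 0 := Fin.ext h3
        have h5 : τ (τ i) = τ 0 := by rw [h4]
        rw [hττ, Equiv.swap_apply_left] at h5
        exact h5
      by_cases h3 : ((τ i : Fin N) : ℕ) < r + 1
      · rw [if_pos ⟨h, h3⟩, Finset.sum_eq_single (((τ i : Fin N) : ℕ) - 1)]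
        · rw [if_pos (by omega)]
          congr 1
          omega
        · intro t _ ht
          exact if_neg (by omega)
        · intro h4
          exact absurd (Finset.mem_range.2 (by omega)) h4
      · rw [if_neg (fun h' => h3 h'.2)]
        exact Finset.sum_eq_zero fun t ht => if_neg (by
          have := Finset.mem_range.1 ht
          omega)
  refine ⟨U, hN, hU0, ?_, ?_, ?_⟩
  · intro t ht
    by_cases h0 : t = 0
    · rw [h0, hU0]; exact hs
    · rw [hUt t ht h0]
      intro h
      have := congrFun h (τ ⟨t, ht⟩)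
      simp at this
  · intro a r hr
    rcases Nat.eq_zero_or_pos r with h0 | h0
    · rw [h0, Finset.range_zero, Finset.sum_empty, norm_zero]; exact norm_nonneg _
    · rw [pi_norm_le_iff_of_nonneg (norm_nonneg _)]
      intro i
      rw [hsum a r hr h0]
      by_cases h : i ≠ l ∧ ((τ i : Fin N) : ℕ) < r
      · rw [if_pos h]
        have h1 := norm_le_pi_norm (∑ t ∈ Finset.range N, a t • U t) i
        rw [hsum a N le_rfl hN, if_pos ⟨h.1, (τ i).2⟩] at h1
        exact h1
      · rw [if_neg h, add_zero]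
        have h1 := norm_le_pi_norm (∑ t ∈ Finset.range N, a t • U t) l
        rw [hsum a N le_rfl hN, if_neg (fun h' => h'.1 rfl), add_zero] at h1
        refine le_trans ?_ h1
        rw [norm_mul, norm_mul]
        exact mul_le_mul_of_nonneg_left (hl i) (norm_nonneg _)
  · intro δ
    refine ⟨fun t => if t = 0 then δ l / s l else
      if h : t < N then δ (τ ⟨t, h⟩) - δ l / s l * s (τ ⟨t, h⟩) else 0, ?_⟩
    ext i
    rw [hsum _ N le_rfl hN, if_pos rfl]
    by_cases h : i = l
    · rw [if_neg (fun h' => h'.1 h), add_zero, h]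
      field_simp
    · have hττ : τ (τ i) = i := hself i
      have h2 : ((τ i : Fin N) : ℕ) ≠ 0 := by
        intro h3
        apply h
        have h4 : τ i = 0 := Fin.ext h3
        have h5 : τ (τ i) = τ 0 := by rw [h4]
        rw [hττ, Equiv.swap_apply_left] at h5
        exact h5
      rw [if_pos ⟨h, (τ i).2⟩, if_neg h2, dif_pos (τ i).2]
      have h3 : (⟨((τ i : Fin N) : ℕ), (τ i).2⟩ : Fin N) = τ i := rfl
      rw [h3, hττ]
      ring

end Pool.Agent.H42.LI
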