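import Pool.Agent.H14.C0.Block
import Pool.Agent.H14.C0.System
import Pool.Agent.H42.LI.BlockBasis

/-!
# From a local structure adapted to a sequence to a basis which extends the sequence
-/

set_option autoImplicit false

namespace Pool.Agent.H42.LI

open Filter Topology Pool.Agent.H14.NP Pool.Agent.H14.C0

variable {𝕜 : Type*} [RCLike 𝕜] {E : Type*} [NormedAddCommGroup E] [NormedSpace 𝕜 E]

/-- A local structure adapted to the sequence `y`: operators `a n : E → ℓ_∞^{N n}` and
`b n : ℓ_∞^{N n} → E` with `b n ∘ a n → id`, and transfer operators `τ n m` (`m < n`). -/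
structure Loc (y : ℕ → E) (N : ℕ → ℕ) (a : ∀ n, E →L[𝕜] (Fin (N n) → 𝕜))
    (b : ∀ n, (Fin (N n) → 𝕜) →L[𝕜] E) (τ : ∀ n m, (Fin (N m) → 𝕜) →L[𝕜] (Fin (N n) → 𝕜))
    (C : ℝ) : Prop where
  nonneg : 0 ≤ C
  a_le : ∀ n, ‖a n‖ ≤ C
  b_le : ∀ n, ‖b n‖ ≤ C
  τ_le : ∀ n m, ‖τ n m‖ ≤ C
  comp : ∀ n m l, l < m → m < n → ∀ s, τ n m (τ m l s) = τ n l s
  lim : ∀ w, Tendsto (fun n => b n (a n w)) atTop (𝓝 w)
  τa : ∀ w ε, 0 < ε → ∃ J, ∀ j ≥ J, ∀ n > j, ‖τ n j (a j w) - a n w‖ ≤ ε
  τb : ∀ j s, Tendsto (fun n => ‖τ n j s - a n (b j s)‖) atTop (𝓝 0)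
  y_lt : ∀ n i, n < i → a n (y i) = 0
  y_gt : ∀ n i, i < n → a n (y i) = τ n i (a i (y i))
  y_ne : ∀ i, a i (y i) ≠ 0

theorem Loc.system {y : ℕ → E} {N : ℕ → ℕ} {a : ∀ n, E →L[𝕜] (Fin (N n) → 𝕜)}
    {b : ∀ n, (Fin (N n) → 𝕜) →L[𝕜] E} {τ : ∀ n m, (Fin (N m) → 𝕜) →L[𝕜] (Fin (N n) → 𝕜)}
    {C : ℝ} (h : Loc y N a b τ C) (z : c0 𝕜 →L[𝕜] E) (φ : E →L[𝕜] c0 𝕜)
    (hφz : ∀ c, φ (z c) = c) (hφy : ∀ i, φ (y i) = 0) :
    ∃ (v : ∀ n, E →L[𝕜] (Fin (N n) → 𝕜)) (C' : ℝ), 0 ≤ C' ∧ (∀ n, ‖v n‖ ≤ C') ∧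
      (∀ x B, (∀ n, ‖v n x‖ ≤ B) → ‖x‖ ≤ C' * B) ∧
      (∀ (u : ∀ n, Fin (N n) → 𝕜) (w : E), Tendsto (fun n => ‖u n - a n w‖) atTop (𝓝 0) →
        ∃ x, ∀ n, v n x = u n) ∧
      (∀ x ε, 0 < ε → ∃ J, ∀ j ≥ J, ∀ n > j, ‖τ n j (v j x) - v n x‖ ≤ ε) ∧
      (∀ n i, v n (y i) = a n (y i)) := by
  classical
  let A : Type := ℕ ⊕ (Σ n, Fin (N n))
  obtain ⟨ρ⟩ : Nonempty (A ≃ ℕ) := by
    have : Infinite A := inferInstanceAs (Infinite (ℕ ⊕ (Σ n, Fin (N n))))
    have : Countable A := inferInstanceAs (Countable (ℕ ⊕ (Σ n, Fin (N n))))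
    exact nonempty_equiv_of_countable
  have hinl : Function.Injective (fun k : ℕ => ρ (Sum.inl k)) := fun a b h =>
    Sum.inl_injective (ρ.injective h)
  let c1 : c0 𝕜 →L[𝕜] c0 𝕜 := mkOp (fun k => (coord 𝕜 (ρ (Sum.inl k)) : c0 𝕜 →ₗ[𝕜] 𝕜)) 1
    zero_le_one (fun k a => by rw [one_mul]; exact norm_coe_le _ _)
    (fun a => by
      have h1 := hinl.tendsto_cofinite
      rw [Nat.cofinite_eq_atTop] at h1
      exact (c0_tendsto a).comp h1)
  have hc1 : ∀ a k, c1 a k = a (ρ (Sum.inl k)) := fun a k => rfl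
  let κ : ∀ n, c0 𝕜 →L[𝕜] (Fin (N n) → 𝕜) := fun n =>
    ContinuousLinearMap.pi fun t => coord 𝕜 (ρ (Sum.inr ⟨n, t⟩))
  have hκ : ∀ n a t, κ n a t = a (ρ (Sum.inr ⟨n, t⟩)) := fun n a t => rfl
  have hκn : ∀ n a, ‖κ n a‖ ≤ ‖a‖ := fun n a =>
    (pi_norm_le_iff_of_nonneg (norm_nonneg _)).2 fun t => norm_coe_le _ _
  have hκt : ∀ a, Tendsto (fun n => ‖κ n a‖) atTop (𝓝 0) := by
    intro a
    rw [Metric.tendsto_atTop]
    intro ε hε
    have hfin := finite_ge a (ε / 2) (half_pos hε)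
    have hbad : ((fun k => match ρ.symm k with
      | Sum.inl _ => 0
      | Sum.inr s => s.1) '' {i | ε / 2 ≤ ‖a i‖}).Finite := hfin.image _
    obtain ⟨n0, hn0⟩ := hbad.bddAbove
    refine ⟨n0 + 1, fun n hn => ?_⟩
    rw [dist_zero_right, norm_norm]
    refine lt_of_le_of_lt ((pi_norm_le_iff_of_nonneg (r := ε / 2) (by positivity)).2 fun t => ?_)
      (by linarith)
    rw [hκ]
    by_contra hcon
    push Not at hcon
    have h1 : n ≤ n0 := by
      refine hn0 ⟨ρ (Sum.inr ⟨n, t⟩), hcon.le, ?_⟩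
      simp
    omega
  let X : E →L[𝕜] E := ContinuousLinearMap.id 𝕜 _ - z.comp φ + z.comp (c1.comp φ)
  have hX : ∀ x, X x = x - z (φ x) + z (c1 (φ x)) := fun x => rfl
  have hφX : ∀ x, φ (X x) = c1 (φ x) := by
    intro x
    rw [hX, map_add, map_sub, hφz, hφz, sub_self, zero_add]
  let v : ∀ n, E →L[𝕜] (Fin (N n) → 𝕜) := fun n => (a n).comp X + (κ n).comp φ
  have hv : ∀ n x, v n x = a n (X x) + κ n (φ x) := fun n x => rfl
  have hC := h.nonneg
  have hbv : ∀ x, Tendsto (fun n => b n (v n x)) atTop (𝓝 (X x)) := by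
    intro x
    have h1 : Tendsto (fun n => b n (κ n (φ x))) atTop (𝓝 0) := by
      rw [tendsto_zero_iff_norm_tendsto_zero]
      refine squeeze_zero (fun n => norm_nonneg _) (fun n => ((b n).le_opNorm _).trans
        (mul_le_mul_of_nonneg_right (h.b_le n) (norm_nonneg _))) ?_
      have := (hκt (φ x)).const_mul C
      rwa [mul_zero] at this
    have h2 := (h.lim (X x)).add h1
    rw [add_zero] at h2
    refine h2.congr fun n => ?_
    rw [hv, map_add]
  set C1 := C * ‖X‖ + ‖φ‖ with hC1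
  set C2 := C + ‖z‖ * (‖φ‖ * C + 1 + C * C) + ‖z‖ * (‖φ‖ * C) with hC2
  have hC1p : 0 ≤ C1 := by positivity
  have hC2p : 0 ≤ C2 := by positivity
  refine ⟨v, max C1 C2, le_max_of_le_left hC1p, ?_, ?_, ?_, ?_, ?_⟩
  · intro n
    refine le_trans ?_ (le_max_left _ _)
    refine ContinuousLinearMap.opNorm_le_bound _ hC1p fun x => ?_
    rw [hv]
    calc ‖a n (X x) + κ n (φ x)‖ ≤ ‖a n (X x)‖ + ‖κ n (φ x)‖ := norm_add_le _ _
      _ ≤ C * (‖X‖ * ‖x‖) + ‖φ‖ * ‖x‖ := by
          refine add_le_add (((a n).le_opNorm _).trans ?_) ((hκn _ _).trans (φ.le_opNorm _))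
          exact mul_le_mul (h.a_le n) (X.le_opNorm _) (norm_nonneg _) hC
      _ = C1 * ‖x‖ := by rw [hC1]; ring
  · intro x B hB
    have hB0 : 0 ≤ B := (norm_nonneg _).trans (hB 0)
    have hXB : ‖X x‖ ≤ C * B := le_of_tendsto (hbv x).norm (Eventually.of_forall fun n =>
      ((b n).le_opNorm _).trans (mul_le_mul (h.b_le n) (hB n) (norm_nonneg _) hC))
    have hφXB : ‖φ (X x)‖ ≤ ‖φ‖ * (C * B) := (φ.le_opNorm _).trans (by gcongr)
    have hφx : ‖φ x‖ ≤ (‖φ‖ * C + 1 + C * C) * B := by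
      refine c0_norm_le (by positivity) fun k => ?_
      obtain ⟨i, rfl⟩ := ρ.surjective k
      rcases i with k' | ⟨n, t⟩
      · have h1 : φ x (ρ (Sum.inl k')) = φ (X x) k' := by rw [hφX, hc1]
        rw [h1]
        refine (norm_coe_le _ _).trans (hφXB.trans ?_)
        nlinarith [mul_nonneg (mul_nonneg hC hC) hB0]
      · have h1 : φ x (ρ (Sum.inr ⟨n, t⟩)) = (v n x - a n (X x)) t := by
          rw [hv, add_sub_cancel_left, hκ]
        rw [h1]
        refine (norm_le_pi_norm _ _).trans ?_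
        calc ‖v n x - a n (X x)‖ ≤ ‖v n x‖ + ‖a n (X x)‖ := norm_sub_le _ _
          _ ≤ B + C * (C * B) := by
              refine add_le_add (hB n) (((a n).le_opNorm _).trans ?_)
              exact mul_le_mul (h.a_le n) hXB (norm_nonneg _) hC
          _ ≤ (‖φ‖ * C + 1 + C * C) * B := by
              nlinarith [mul_nonneg (mul_nonneg (norm_nonneg φ) hC) hB0]
    have hx : x = X x + z (φ x) - z (φ (X x)) := by
      rw [hφX, hX]; abel
    calc ‖x‖ = ‖X x + z (φ x) - z (φ (X x))‖ := by rw [← hx]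
      _ ≤ ‖X x‖ + ‖z (φ x)‖ + ‖z (φ (X x))‖ :=
          (norm_sub_le _ _).trans (add_le_add (norm_add_le _ _) le_rfl)
      _ ≤ C * B + ‖z‖ * ((‖φ‖ * C + 1 + C * C) * B) + ‖z‖ * (‖φ‖ * (C * B)) := by
          refine add_le_add (add_le_add hXB ((z.le_opNorm _).trans ?_)) ((z.le_opNorm _).trans ?_)
          · exact mul_le_mul_of_nonneg_left hφx (norm_nonneg _)
          · exact mul_le_mul_of_nonneg_left hφXB (norm_nonneg _)
      _ = C2 * B := by rw [hC2]; ring
      _ ≤ max C1 C2 * B := by gcongr; exact le_max_right _ _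
  · intro u w hw
    let g : A → 𝕜 := fun i => match i with
      | Sum.inl k => φ w k
      | Sum.inr s => (u s.1 - a s.1 w) s.2
    have hfin : ∀ ε : ℝ, 0 < ε → {i | ε ≤ ‖g i‖}.Finite := by
      intro ε hε
      obtain ⟨n0, hn0⟩ := eventually_atTop.1 (hw.eventually (gt_mem_nhds hε))
      have hsub : {i | ε ≤ ‖g i‖} ⊆ (Sum.inl '' {k | ε ≤ ‖φ w k‖}) ∪
          (Sum.inr '' (⋃ n ∈ Finset.range n0, Set.range fun j : Fin (N n) =>
            (⟨n, j⟩ : Σ n, Fin (N n)))) := by
        intro i hi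
        rcases i with k | ⟨n, j⟩
        · exact Or.inl ⟨k, hi, rfl⟩
        · refine Or.inr ⟨⟨n, j⟩, ?_, rfl⟩
          have hi' : ε ≤ ‖(u n - a n w) j‖ := hi
          have hn : n < n0 := by
            by_contra hcon
            have := hn0 n (not_lt.1 hcon)
            have h2 := norm_le_pi_norm (u n - a n w) j
            linarith
          simp only [Set.mem_iUnion]
          exact ⟨n, Finset.mem_range.2 hn, ⟨j, rfl⟩⟩
      refine Set.Finite.subset ?_ hsub
      refine ((finite_ge (φ w) ε hε).image _).union (Set.Finite.image _ ?_)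
      exact (Finset.finite_toSet _).biUnion fun n _ => Set.finite_range _
    let c : c0 𝕜 := mk0 (fun k => g (ρ.symm k)) (tendsto_transport ρ g hfin)
    have hc : ∀ i, c (ρ i) = g i := by
      intro i
      change g (ρ.symm (ρ i)) = g i
      rw [ρ.symm_apply_apply]
    have hc1c : c1 c = φ w := by
      ext k
      rw [hc1, hc]
    have hκc : ∀ n, κ n c = u n - a n w := by
      intro n
      ext j
      rw [hκ, hc]
    refine ⟨w - z (φ w) + z c, fun n => ?_⟩
    have hφ' : φ (w - z (φ w) + z c) = c := by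
      rw [map_add, map_sub, hφz, hφz, sub_self, zero_add]
    have hX' : X (w - z (φ w) + z c) = w := by
      rw [hX, hφ', hc1c]; abel
    rw [hv, hX', hφ', hκc]
    abel
  · intro x ε hε
    obtain ⟨J1, hJ1⟩ := h.τa (X x) (ε / 2) (half_pos hε)
    have hpos : 0 < ε / (2 * (C + 1)) := by positivity
    obtain ⟨J2, hJ2⟩ := eventually_atTop.1 ((hκt (φ x)).eventually (gt_mem_nhds hpos))
    refine ⟨max J1 J2, fun j hj n hn => ?_⟩
    have h1 := hJ1 j (le_trans (le_max_left _ _) hj) n hn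
    have h2 := hJ2 j (le_trans (le_max_right _ _) hj)
    have h3 := hJ2 n (by have := le_max_right J1 J2; omega)
    have h4 : τ n j (v j x) - v n x =
        (τ n j (a j (X x)) - a n (X x)) + (τ n j (κ j (φ x)) - κ n (φ x)) := by
      rw [hv, hv, map_add]; abel
    rw [h4]
    calc _ ≤ ‖τ n j (a j (X x)) - a n (X x)‖ + ‖τ n j (κ j (φ x)) - κ n (φ x)‖ :=
          norm_add_le _ _
      _ ≤ ε / 2 + (C * (ε / (2 * (C + 1))) + ε / (2 * (C + 1))) := by
          refine add_le_add h1 ((norm_sub_le _ _).trans (add_le_add ?_ h3.le))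
          exact ((τ n j).le_opNorm _).trans (mul_le_mul (h.τ_le _ _) h2.le (norm_nonneg _) hC)
      _ = ε := by field_simp; ring
  · intro n i
    have hXy : X (y i) = y i := by
      rw [hX, hφy, map_zero, map_zero, map_zero, sub_zero, add_zero]
    rw [hv, hXy, hφy, map_zero, add_zero]

/-- If the sequence `y` has an adapted local structure and lies in the kernel of an operator onto
`c_0` with a bounded right inverse, then it extends to a basis. -/
theorem Loc.extends {y : ℕ → E} {N : ℕ → ℕ} {a : ∀ n, E →L[𝕜] (Fin (N n) → 𝕜)}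
    {b : ∀ n, (Fin (N n) → 𝕜) →L[𝕜] E} {τ : ∀ n m, (Fin (N m) → 𝕜) →L[𝕜] (Fin (N n) → 𝕜)}
    {C : ℝ} (h : Loc y N a b τ C) (z : c0 𝕜 →L[𝕜] E) (φ : E →L[𝕜] c0 𝕜)
    (hφz : ∀ c, φ (z c) = c) (hφy : ∀ i, φ (y i) = 0) : ExtendsToBasis 𝕜 y := by
  classical
  obtain ⟨v, C', hC0, hvn, hvb, hvs, hvt, hvy⟩ := h.system z φ hφz hφy
  have hC := h.nonneg
  have hinj : ∀ x x', (∀ n, v n x = v n x') → x = x' := by
    intro x x' h
    have h1 := hvb (x - x') 0 (fun n => by rw [map_sub, h n, sub_self, norm_zero])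
    rw [mul_zero] at h1
    exact sub_eq_zero.1 (norm_le_zero_iff.1 h1)
  -- the stopped sequences
  have hQex : ∀ m x, ∃ x', ∀ n, v n x' = if n ≤ m then v n x else τ n m (v m x) := by
    intro m x
    refine hvs (fun n => if n ≤ m then v n x else τ n m (v m x)) (b m (v m x)) ?_
    refine (h.τb m (v m x)).congr' ?_
    filter_upwards [eventually_gt_atTop m] with n hn
    rw [if_neg (by omega)]
  choose q hq using hQex
  let R : ℕ → (E →L[𝕜] E) := fun m => LinearMap.mkContinuous
    { toFun := fun x => q m x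
      map_add' := fun x x' => hinj _ _ fun n => by
        rw [map_add, hq, hq, hq]
        split_ifs
        · rw [map_add]
        · rw [map_add, map_add]
      map_smul' := fun c x => hinj _ _ fun n => by
        rw [RingHom.id_apply, map_smul, hq, hq]
        split_ifs
        · rw [map_smul]
        · rw [map_smul, map_smul] } (C' * ((1 + C) * C'))
    (fun x => by
      rw [mul_assoc]
      refine hvb _ _ fun n => ?_
      change ‖v n (q m x)‖ ≤ _
      rw [hq]
      have h1 : ∀ k, ‖v k x‖ ≤ C' * ‖x‖ := fun k =>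
        ((v k).le_opNorm x).trans (mul_le_mul_of_nonneg_right (hvn k) (norm_nonneg _))
      split_ifs
      · refine (h1 n).trans ?_
        have : 0 ≤ C * (C' * ‖x‖) := by positivity
        nlinarith
      · refine ((τ n m).le_opNorm _).trans ((mul_le_mul (h.τ_le n m) (h1 m) (norm_nonneg _)
          hC).trans ?_)
        have : 0 ≤ C' * ‖x‖ := by positivity
        nlinarith)
  have hR : ∀ m x n, v n (R m x) = if n ≤ m then v n x else τ n m (v m x) := fun m x n => hq m x n
  let Q : ℕ → (E →L[𝕜] E) := fun n => match n with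
    | 0 => 0
    | m + 1 => R m
  have hQ0 : Q 0 = 0 := rfl
  have hQs : ∀ m, Q (m + 1) = R m := fun m => rfl
  have hRR : ∀ m k x, R m (R k x) = R (min m k) x := by
    intro m k x
    refine hinj _ _ fun n => ?_
    rw [hR, hR, hR, hR]
    rcases le_total m k with hmk | hmk
    · rw [min_eq_left hmk]
      by_cases hn : n ≤ m
      · rw [if_pos hn, if_pos (hn.trans hmk), if_pos hn]
      · rw [if_neg hn, if_pos hmk, if_neg hn]
    · rw [min_eq_right hmk]
      by_cases hn : n ≤ k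
      · rw [if_pos (hn.trans hmk), if_pos hn]
      · rw [if_neg hn]
        by_cases hn' : n ≤ m
        · rw [if_pos hn']
        · rw [if_neg hn']
          by_cases hmk' : m ≤ k
          · have : m = k := le_antisymm hmk' hmk
            subst this
            rw [if_pos le_rfl]
          · rw [if_neg hmk']
            exact h.comp n m k (by omega) (by omega) _
  have hQQ : ∀ n m x, Q n (Q m x) = Q (min n m) x := by
    intro n m x
    rcases n with _ | n
    · rw [Nat.zero_min, hQ0]; rfl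
    · rcases m with _ | m
      · rw [Nat.min_zero, hQ0]
        exact map_zero _
      · rw [hQs, hQs, hRR]
        have : min (n + 1) (m + 1) = min n m + 1 := by omega
        rw [this, hQs]
  have hQt : ∀ x, Tendsto (fun m => Q m x) atTop (𝓝 x) := by
    intro x
    rw [← tendsto_add_atTop_iff_nat 1]
    rw [Metric.tendsto_atTop]
    intro ε hε
    have hpos : 0 < ε / (2 * (C' + 1)) := by positivity
    obtain ⟨J, hJ⟩ := hvt x _ hpos
    refine ⟨J, fun m hm => ?_⟩
    rw [dist_eq_norm, hQs]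
    have h1 : ‖R m x - x‖ ≤ C' * (ε / (2 * (C' + 1))) := by
      refine hvb _ _ fun n => ?_
      rw [map_sub, hR]
      by_cases hn : n ≤ m
      · rw [if_pos hn, sub_self, norm_zero]; exact hpos.le
      · rw [if_neg hn]
        exact hJ m hm n (by omega)
    refine lt_of_le_of_lt h1 ?_
    have h2 : C' * (ε / (2 * (C' + 1))) = ε * (C' / (2 * (C' + 1))) := by ring
    rw [h2]
    have h3 : C' / (2 * (C' + 1)) < 1 := by
      rw [div_lt_one (by positivity)]; linarith
    nlinarith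
  -- the blocks
  choose U hNpos hU0 hUne hUgr hUspan using fun m => exists_block (a m (y m)) (h.y_ne m)
  have huex : ∀ m t, ∃ x, v m x = U m t ∧ (∀ n < m, v n x = 0) ∧
      ∀ n > m, v n x = τ n m (U m t) := by
    intro m t
    obtain ⟨x, hx⟩ := hvs (Function.update (fun n => if n < m then 0 else τ n m (U m t)) m (U m t))
      (b m (U m t)) (by
        refine (h.τb m (U m t)).congr' ?_
        filter_upwards [eventually_gt_atTop m] with n hn
        rw [Function.update_of_ne hn.ne', if_neg (by omega)])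
    refine ⟨x, ?_, fun n hn => ?_, fun n hn => ?_⟩
    · rw [hx, Function.update_self]
    · rw [hx, Function.update_of_ne hn.ne, if_pos hn]
    · rw [hx, Function.update_of_ne (ne_of_gt hn), if_neg (not_lt.2 (le_of_lt hn))]
  choose u hu hult hugt using huex
  have husum : ∀ m (c : ℕ → 𝕜) r, v m (∑ t ∈ Finset.range r, c t • u m t) =
      ∑ t ∈ Finset.range r, c t • U m t := by
    intro m c r
    rw [map_sum]
    exact Finset.sum_congr rfl fun t _ => by rw [map_smul, hu]
  have husum_lt : ∀ m (c : ℕ → 𝕜) r n, n < m → v n (∑ t ∈ Finset.range r, c t • u m t) = 0 := by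
    intro m c r n hn
    rw [map_sum]
    exact Finset.sum_eq_zero fun t _ => by rw [map_smul, hult m t n hn, smul_zero]
  have husum_gt : ∀ m (c : ℕ → 𝕜) r n, m < n → v n (∑ t ∈ Finset.range r, c t • u m t) =
      τ n m (∑ t ∈ Finset.range r, c t • U m t) := by
    intro m c r n hn
    rw [map_sum, map_sum]
    exact Finset.sum_congr rfl fun t _ => by rw [map_smul, map_smul, hugt m t n hn]
  have hblock : ∀ m x, (∀ n < m, v n x = 0) → (∀ n > m, v n x = τ n m (v m x)) →
      ∃ c : ℕ → 𝕜, x = ∑ t ∈ Finset.range (N m), c t • u m t := by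
    intro m x h1 h2
    obtain ⟨c, hc⟩ := hUspan m (v m x)
    refine ⟨c, hinj _ _ fun n => ?_⟩
    rcases lt_trichotomy n m with hn | hn | hn
    · rw [h1 n hn, husum_lt m c _ n hn]
    · subst hn
      rw [husum]; exact hc
    · rw [h2 n hn, husum_gt m c _ n hn, ← hc]
  obtain ⟨x, hx, κ, hκ, hκx⟩ := isBasis_of_blocks Q hQ0 hQQ hQt N hNpos u
    (fun m t ht => hinj _ _ fun n => by
      rw [hQs, hR]
      by_cases hn : n ≤ m
      · rw [if_pos hn]
      · rw [if_neg hn, hu, hugt m t n (by omega)])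
    (fun m t ht => by
      rcases m with _ | m
      · rfl
      · refine hinj _ _ fun n => ?_
        rw [hQs, hR, map_zero, hult (m + 1) t m (by omega), map_zero]
        by_cases hn : n ≤ m
        · rw [if_pos hn, hult (m + 1) t n (by omega)]
        · rw [if_neg hn])
    (fun m t ht h0 => by
      have h1 := hu m t
      rw [h0, map_zero] at h1
      exact hUne m t ht h1.symm)
    (C' * ((1 + C) * C'))
    (fun m c r hr => by
      have h1 : ‖∑ t ∈ Finset.range (N m), c t • U m t‖ ≤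
          C' * ‖∑ t ∈ Finset.range (N m), c t • u m t‖ := by
        rw [← husum m c (N m)]
        exact ((v _).le_opNorm _).trans (mul_le_mul_of_nonneg_right (hvn _) (norm_nonneg _))
      have h2 := (hUgr m c r hr).trans h1
      rw [mul_assoc]
      refine hvb _ _ fun n => ?_
      have h3 : 0 ≤ C' * ‖∑ t ∈ Finset.range (N m), c t • u m t‖ := by positivity
      have h4 : 0 ≤ C * (C' * ‖∑ t ∈ Finset.range (N m), c t • u m t‖) := by positivity
      rcases lt_trichotomy n m with hn | hn | hn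
      · rw [husum_lt m c r n hn, norm_zero]; nlinarith
      · subst hn
        rw [husum]
        refine h2.trans ?_
        nlinarith
      · rw [husum_gt m c r n hn]
        refine ((τ n m).le_opNorm _).trans ((mul_le_mul (h.τ_le n m) h2 (norm_nonneg _)
          hC).trans ?_)
        nlinarith)
    (fun m w => by
      refine hblock m _ (fun n hn => ?_) (fun n hn => ?_)
      · rcases m with _ | m
        · omega
        · rw [map_sub, hQs, hQs, hR, hR, if_pos (by omega), if_pos (by omega), sub_self]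
      · rcases m with _ | m
        · have hn' : ¬ n ≤ 0 := not_le.2 hn
          rw [hQ0, hQs, _root_.zero_apply, sub_zero, hR, hR, if_pos le_rfl, if_neg hn']
        · rw [map_sub, map_sub, hQs, hQs, hR, hR, hR, hR, if_neg (by omega), if_neg (by omega),
            if_pos le_rfl, if_neg (by omega), map_sub, h.comp n (m + 1) m (by omega) (by omega)])
  refine ⟨x, hx, κ, hκ, fun m => ?_⟩
  rw [hκx]
  refine hinj _ _ fun n => ?_
  rw [hvy]
  rcases lt_trichotomy n m with hn | hn | hn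
  · rw [h.y_lt n m hn, hult m 0 n hn]
  · subst hn
    rw [hu, hU0]
  · rw [h.y_gt n m hn, hugt m 0 n hn, hU0]

end Pool.Agent.H42.LI
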