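import Pool.Agent.H14.C0.System

/-!
# A copy of `c_0` which is not annihilated yields a complemented copy in the kernel direction
-/

set_option autoImplicit false

namespace Pool.Agent.H42.LI

open Filter Topology Pool.Agent.H14.C0

variable {𝕜 : Type*} [RCLike 𝕜] {E : Type*} [NormedAddCommGroup E] [NormedSpace 𝕜 E]
variable {Z : Type*} [NormedAddCommGroup Z] [NormedSpace 𝕜 Z]

lemma summable_e (f : c0 𝕜 →L[𝕜] 𝕜) : Summable fun j => ‖f (e 𝕜 j)‖ :=
  summable_of_sum_le (fun _ => norm_nonneg _) (fun s => sum_norm_e_le f s)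

/-- Spreading the coordinates along an injection. -/
lemma exists_spread (s : ℕ → ℕ) (hs : Function.Injective s) :
    ∃ J : c0 𝕜 →L[𝕜] c0 𝕜, ∀ j, J (e 𝕜 j) = e 𝕜 (s j) := by
  classical
  let r : ℕ → (c0 𝕜 →ₗ[𝕜] 𝕜) := fun n =>
    if h : ∃ i, s i = n then (coord 𝕜 h.choose : c0 𝕜 →ₗ[𝕜] 𝕜) else 0
  have hr1 : ∀ i c, r (s i) c = c i := by
    intro i c
    have h : ∃ i', s i' = s i := ⟨i, rfl⟩
    change (if h : ∃ i', s i' = s i then (coord 𝕜 h.choose : c0 𝕜 →ₗ[𝕜] 𝕜) else 0) c = _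
    rw [dif_pos h]
    have h2 : h.choose = i := hs h.choose_spec
    rw [h2]; rfl
  have hr2 : ∀ n, (¬ ∃ i, s i = n) → ∀ c, r n c = 0 := by
    intro n h c
    change (if h : ∃ i', s i' = n then (coord 𝕜 h.choose : c0 𝕜 →ₗ[𝕜] 𝕜) else 0) c = _
    rw [dif_neg h]; rfl
  let J : c0 𝕜 →L[𝕜] c0 𝕜 := mkOp r 1 zero_le_one
    (fun n c => by
      rw [one_mul]
      by_cases h : ∃ i, s i = n
      · obtain ⟨i, rfl⟩ := h
        rw [hr1]; exact norm_coe_le c i
      · rw [hr2 n h, norm_zero]; exact norm_nonneg _)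
    (fun c => by
      rw [← Nat.cofinite_eq_atTop, tendsto_zero_iff_norm_tendsto_zero, Metric.tendsto_nhds]
      intro ε hε
      rw [eventually_cofinite]
      refine ((finite_ge c ε hε).image s).subset fun n hn => ?_
      have hn' : ¬ dist ‖r n c‖ 0 < ε := hn
      rw [dist_zero_right, norm_norm, not_lt] at hn'
      by_cases h : ∃ i, s i = n
      · obtain ⟨i, rfl⟩ := h
        rw [hr1] at hn'
        exact ⟨i, hn', rfl⟩
      · rw [hr2 n h, norm_zero] at hn'
        linarith)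
  refine ⟨J, fun j => ?_⟩
  ext n
  change r n (e 𝕜 j) = e 𝕜 (s j) n
  by_cases h : ∃ i, s i = n
  · obtain ⟨i, rfl⟩ := h
    rw [hr1]
    change (if i = j then (1 : 𝕜) else 0) = if s i = s j then 1 else 0
    by_cases hij : i = j
    · rw [if_pos hij, if_pos (by rw [hij])]
    · rw [if_neg hij, if_neg (fun h => hij (hs h))]
  · rw [hr2 n h]
    change (0 : 𝕜) = if n = s j then 1 else 0
    rw [if_neg (fun h' => h ⟨j, h'.symm⟩)]

theorem exists_compl [TopologicalSpace.SeparableSpace E] (q : E →L[𝕜] Z) (z₀ : c0 𝕜 →L[𝕜] E)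
    (δ : ℝ) (hδ : 0 < δ) (hq : ∀ n, δ ≤ ‖q (z₀ (e 𝕜 n))‖) :
    ∃ (z : c0 𝕜 →L[𝕜] E) (φ : E →L[𝕜] c0 𝕜), (∀ c, φ (z c) = c) ∧ ∀ x, q x = 0 → φ x = 0 := by
  classical
  -- the functionals
  have hfun : ∀ n, ∃ f : E →L[𝕜] 𝕜, ‖f‖ ≤ ‖q‖ / δ ∧ f (z₀ (e 𝕜 n)) = 1 ∧
      ∀ x, q x = 0 → f x = 0 := by
    intro n
    have hne : ‖q (z₀ (e 𝕜 n))‖ ≠ 0 := (hδ.trans_le (hq n)).ne'
    have hne' : ((‖q (z₀ (e 𝕜 n))‖ : ℝ) : 𝕜) ≠ 0 := by rwa [Ne, RCLike.ofReal_eq_zero]
    obtain ⟨g, hg1, hg2⟩ := exists_dual_vector 𝕜 (q (z₀ (e 𝕜 n))) hne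
    refine ⟨((‖q (z₀ (e 𝕜 n))‖ : ℝ) : 𝕜)⁻¹ • g.comp q, ?_, ?_, ?_⟩
    · rw [norm_smul, norm_inv, RCLike.norm_ofReal, abs_of_nonneg (norm_nonneg _),
        inv_mul_eq_div]
      refine div_le_div₀ (norm_nonneg _) ?_ hδ (hq n)
      refine (ContinuousLinearMap.opNorm_comp_le _ _).trans ?_
      rw [hg1, one_mul]
    · rw [_root_.smul_apply, ContinuousLinearMap.comp_apply, hg2, smul_eq_mul,
        inv_mul_cancel₀ hne']
    · intro x hx
      rw [_root_.smul_apply, ContinuousLinearMap.comp_apply, hx, map_zero, smul_zero]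
  choose f hfn hf1 hf0 using hfun
  set M := ‖q‖ / δ with hM
  have hM0 : 0 ≤ M := by positivity
  -- a weak* convergent subsequence
  have hcomp := WeakDual.isSeqCompact_closedBall 𝕜 E (0 : StrongDual 𝕜 E) M
  obtain ⟨f₀, hf₀, σ, hσ, hlim⟩ := hcomp (x := fun n => StrongDual.toWeakDual (f n)) (fun n => by
    change f n ∈ Metric.closedBall (0 : StrongDual 𝕜 E) M
    rw [mem_closedBall_zero_iff]
    exact hfn n)
  let F₀ : E →L[𝕜] 𝕜 := WeakDual.toStrongDual f₀
  have hF₀n : ‖F₀‖ ≤ M := by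
    have : F₀ ∈ Metric.closedBall (0 : StrongDual 𝕜 E) M := hf₀
    rwa [mem_closedBall_zero_iff] at this
  have hpt : ∀ x, Tendsto (fun n => f (σ n) x) atTop (𝓝 (F₀ x)) := by
    intro x
    exact ((WeakDual.eval_continuous x).tendsto f₀).comp hlim
  have hF₀0 : ∀ x, q x = 0 → F₀ x = 0 := by
    intro x hx
    refine tendsto_nhds_unique (hpt x) ?_
    refine tendsto_const_nhds.congr fun n => ?_
    rw [hf0 _ x hx]
  let θ : ℕ → (E →L[𝕜] 𝕜) := fun n => f (σ n) - F₀
  have hθ : ∀ n x, θ n x = f (σ n) x - F₀ x := fun n x => rfl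
  have hθn : ∀ n, ‖θ n‖ ≤ 2 * M := fun n => (norm_sub_le _ _).trans (by
    have := hfn (σ n); linarith)
  have hθ0 : ∀ n x, q x = 0 → θ n x = 0 := fun n x hx => by
    rw [hθ, hf0 _ x hx, hF₀0 x hx, sub_zero]
  have hθt : ∀ x, Tendsto (fun n => θ n x) atTop (𝓝 0) := by
    intro x
    have := (hpt x).sub_const (F₀ x)
    rwa [sub_self] at this
  let u : ℕ → E := fun n => z₀ (e 𝕜 (σ n))
  have hsum : ∀ g : E →L[𝕜] 𝕜, Summable fun n => ‖g (u n)‖ := fun g =>
    (summable_e (g.comp z₀)).comp_injective hσ.injective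
  have hdiag : Tendsto (fun n => ‖θ n (u n) - 1‖) atTop (𝓝 0) := by
    have h1 := (hsum F₀).tendsto_atTop_zero
    refine h1.congr fun n => ?_
    rw [hθ, hf1, sub_sub_cancel_left, norm_neg]
  -- the next index
  have hnext : ∀ m, ∃ m' > m, (∀ n ≥ m', ∀ l ≤ m, ‖θ n (u l)‖ ≤ 1 / 16 * (1 / 2) ^ (l + 1)) ∧
      ∀ s : Finset ℕ, (∀ n ∈ s, m' ≤ n) → ∑ n ∈ s, ‖θ m (u n)‖ ≤ 1 / 16 := by
    intro m
    have h1 : ∀ᶠ n in atTop, ∀ l ∈ (Finset.range (m + 1) : Set ℕ),
        ‖θ n (u l)‖ ≤ 1 / 16 * (1 / 2) ^ (l + 1) := by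
      rw [eventually_all_finite (Finset.finite_toSet _)]
      intro l _
      have h2 := (hθt (u l)).norm
      rw [norm_zero] at h2
      exact h2.eventually (ge_mem_nhds (by positivity))
    obtain ⟨n₁, hn₁⟩ := eventually_atTop.1 h1
    have h3 := (summable_iff_vanishing_norm.1 (hsum (θ m))) (1 / 16) (by norm_num)
    obtain ⟨s₀, hs₀⟩ := h3
    obtain ⟨n₂, hn₂⟩ := s₀.bddAbove
    refine ⟨max (m + 1) (max n₁ (n₂ + 1)), by omega, fun n hn l hl => ?_, fun s hs => ?_⟩
    · exact hn₁ n (by omega) l (Finset.mem_coe.2 (Finset.mem_range.2 (by omega)))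
    · have h4 := hs₀ s (by
        rw [Finset.disjoint_left]
        intro n hn hn0
        have := hs n hn
        have := hn₂ hn0
        omega)
      rw [Real.norm_of_nonneg (Finset.sum_nonneg fun _ _ => norm_nonneg _)] at h4
      exact h4.le
  choose nxt hnxt hnxt1 hnxt2 using hnext
  obtain ⟨k₀, hk₀⟩ := eventually_atTop.1
    (hdiag.eventually (ge_mem_nhds (show (0 : ℝ) < 1 / 8 by norm_num)))
  let k : ℕ → ℕ := fun i => Nat.rec k₀ (fun _ m => nxt m) i
  have hks : ∀ i, k (i + 1) = nxt (k i) := fun i => rfl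
  have hkm : StrictMono k := strictMono_nat_of_lt_succ fun i => by rw [hks]; exact hnxt _
  have hkk : ∀ i, k₀ ≤ k i := fun i => hkm.monotone (Nat.zero_le i)
  -- the matrix
  let A : ℕ → ℕ → 𝕜 := fun i j => θ (k i) (u (k j))
  have hAd : ∀ i, ‖A i i - 1‖ ≤ 1 / 8 := fun i => hk₀ _ (hkk i)
  have hAl : ∀ i j, j < i → ‖A i j‖ ≤ 1 / 16 * (1 / 2) ^ (j + 1) := by
    intro i j hji
    have h1 : nxt (k j) ≤ k i := by rw [← hks]; exact hkm.monotone hji
    refine (hnxt1 (k j) (k i) h1 (k j) le_rfl).trans ?_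
    refine mul_le_mul_of_nonneg_left ?_ (by norm_num)
    exact pow_le_pow_of_le_one (by norm_num) (by norm_num) (by have := hkm.le_apply (x := j); omega)
  have hAu : ∀ i (s : Finset ℕ), (∀ j ∈ s, i < j) → ∑ j ∈ s, ‖A i j‖ ≤ 1 / 16 := by
    intro i s hs
    have h1 := hnxt2 (k i) (s.image k) (fun n hn => by
      obtain ⟨j, hj, rfl⟩ := Finset.mem_image.1 hn
      rw [← hks]
      exact hkm.monotone (hs j hj))
    rwa [Finset.sum_image (fun a _ b _ h => hkm.injective h)] at h1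
  have hrow : ∀ i N, i < N → ∀ c : ℕ → 𝕜, ∀ B, (∀ j, ‖c j‖ ≤ B) →
      ‖∑ j ∈ Finset.range N, c j * A i j - c i‖ ≤ 1 / 4 * B := by
    intro i N hiN c B hB
    have hB0 : 0 ≤ B := (norm_nonneg _).trans (hB 0)
    have h1 : ∑ j ∈ Finset.range N, c j * A i j - c i =
        (∑ j ∈ Finset.range N, if j < i then c j * A i j else 0) +
        (∑ j ∈ Finset.range N, if i < j then c j * A i j else 0) + c i * (A i i - 1) := by
      have h2 : ∑ j ∈ Finset.range N, c j * A i j =
          ∑ j ∈ Finset.range N, ((if j < i then c j * A i j else 0) +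
            (if i < j then c j * A i j else 0) + (if j = i then c i * A i i else 0)) := by
        refine Finset.sum_congr rfl fun j _ => ?_
        rcases lt_trichotomy j i with h | h | h
        · rw [if_pos h, if_neg (by omega), if_neg (by omega), add_zero, add_zero]
        · subst h
          rw [if_neg (lt_irrefl _), if_pos rfl, zero_add, zero_add]
        · rw [if_neg (by omega), if_pos h, if_neg (by omega), zero_add, add_zero]
      rw [h2, Finset.sum_add_distrib, Finset.sum_add_distrib, Finset.sum_ite_eq',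
        if_pos (Finset.mem_range.2 hiN)]
      ring
    rw [h1]
    have h3 : ‖∑ j ∈ Finset.range N, if j < i then c j * A i j else 0‖ ≤ 1 / 16 * B := by
      calc _ ≤ ∑ j ∈ Finset.range N, B * (1 / 16 * (1 / 2) ^ (j + 1)) := by
            refine norm_sum_le_of_le _ fun j _ => ?_
            split_ifs with h
            · rw [norm_mul]
              exact mul_le_mul (hB j) (hAl i j h) (norm_nonneg _) hB0
            · rw [norm_zero]; positivity
        _ = B * (1 / 16) * ∑ j ∈ Finset.range N, (1 / 2 : ℝ) ^ (j + 1) := by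
            rw [Finset.mul_sum]
            exact Finset.sum_congr rfl fun j _ => by ring
        _ ≤ B * (1 / 16) * 1 := by
            refine mul_le_mul_of_nonneg_left ?_ (by positivity)
            have h4 : ∑ j ∈ Finset.range N, (1 / 2 : ℝ) ^ (j + 1) =
                1 / 2 * ∑ j ∈ Finset.range N, (1 / 2 : ℝ) ^ j := by
              rw [Finset.mul_sum]
              exact Finset.sum_congr rfl fun j _ => by ring
            rw [h4]
            have h5 := Summable.sum_le_tsum (Finset.range N) (fun j _ => by positivity)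
              summable_geometric_two
            rw [tsum_geometric_two] at h5
            linarith
        _ = 1 / 16 * B := by ring
    have h4 : ‖∑ j ∈ Finset.range N, if i < j then c j * A i j else 0‖ ≤ 1 / 16 * B := by
      rw [← Finset.sum_filter]
      calc _ ≤ ∑ j ∈ (Finset.range N).filter (fun j => i < j), B * ‖A i j‖ := by
            refine norm_sum_le_of_le _ fun j _ => ?_
            rw [norm_mul]
            exact mul_le_mul_of_nonneg_right (hB j) (norm_nonneg _)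
        _ = B * ∑ j ∈ (Finset.range N).filter (fun j => i < j), ‖A i j‖ := by
            rw [Finset.mul_sum]
        _ ≤ B * (1 / 16) := mul_le_mul_of_nonneg_left
            (hAu i _ fun j hj => (Finset.mem_filter.1 hj).2) hB0
        _ = 1 / 16 * B := by ring
    have h5 : ‖c i * (A i i - 1)‖ ≤ 1 / 8 * B := by
      rw [norm_mul]
      calc _ ≤ B * (1 / 8) := mul_le_mul (hB i) (hAd i) (norm_nonneg _) hB0
        _ = _ := by ring
    calc _ ≤ ‖∑ j ∈ Finset.range N, if j < i then c j * A i j else 0‖ +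
          ‖∑ j ∈ Finset.range N, if i < j then c j * A i j else 0‖ + ‖c i * (A i i - 1)‖ :=
          (norm_add_le _ _).trans (add_le_add (norm_add_le _ _) le_rfl)
      _ ≤ 1 / 16 * B + 1 / 16 * B + 1 / 8 * B := by gcongr
      _ = 1 / 4 * B := by ring
  -- the operators
  obtain ⟨J, hJ⟩ := exists_spread (𝕜 := 𝕜) (fun i => σ (k i)) (hσ.injective.comp hkm.injective)
  let z : c0 𝕜 →L[𝕜] E := z₀.comp J
  have hze : ∀ j, z (e 𝕜 j) = u (k j) := fun j => congrArg z₀ (hJ j)
  let Φ : E →L[𝕜] c0 𝕜 := mkOp (fun i => (θ (k i) : E →ₗ[𝕜] 𝕜)) (2 * M) (by positivity)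
    (fun i x => ((θ (k i)).le_opNorm x).trans
      (mul_le_mul_of_nonneg_right (hθn _) (norm_nonneg _)))
    (fun x => (hθt x).comp hkm.tendsto_atTop)
  have hΦ : ∀ x i, Φ x i = θ (k i) x := fun x i => rfl
  let T : c0 𝕜 →L[𝕜] c0 𝕜 := Φ.comp z
  have hTc : ∀ c i, T c i = θ (k i) (z c) := fun c i => rfl
  have hT : ‖1 - T‖ ≤ 1 / 4 := by
    refine ContinuousLinearMap.opNorm_le_bound _ (by norm_num) fun c => ?_
    refine c0_norm_le (by positivity) fun i => ?_
    have h1 : (1 - T) c i = -(T c i - c i) := by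
      change c i - T c i = _
      ring
    rw [h1, norm_neg, hTc]
    have h2 : Tendsto (fun N => ‖∑ j ∈ Finset.range N, c j * A i j - c i‖) atTop
        (𝓝 ‖θ (k i) (z c) - c i‖) := by
      refine Tendsto.norm (Tendsto.sub_const ?_ _)
      have h3 := (((θ (k i)).comp z).continuous.tendsto c).comp (proj_tendsto c)
      refine h3.congr fun N => ?_
      simp only [Function.comp_apply, proj_eq_sum, map_sum, map_smul]
      refine Finset.sum_congr rfl fun j _ => ?_
      rw [smul_eq_mul, ContinuousLinearMap.comp_apply, hze]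
    refine le_of_tendsto h2 ?_
    filter_upwards [eventually_gt_atTop i] with N hN
    exact hrow i N hN c ‖c‖ (norm_coe_le c)
  let U := Units.oneSub (1 - T) (lt_of_le_of_lt hT (by norm_num))
  have hU : (U : c0 𝕜 →L[𝕜] c0 𝕜) = T := by
    change 1 - (1 - T) = T
    abel
  let L : c0 𝕜 ≃L[𝕜] c0 𝕜 := ContinuousLinearEquiv.unitsEquiv 𝕜 (c0 𝕜) U
  have hL : ∀ c, L c = T c := by
    intro c
    change (U : c0 𝕜 →L[𝕜] c0 𝕜) c = _
    rw [hU]
  refine ⟨z, (L.symm : c0 𝕜 →L[𝕜] c0 𝕜).comp Φ, fun c => ?_, fun x hx => ?_⟩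
  · change L.symm (Φ (z c)) = c
    rw [L.symm_apply_eq, hL]
    rfl
  · change L.symm (Φ x) = 0
    have : Φ x = 0 := by
      ext i
      rw [hΦ, hθ0 _ x hx]
      rfl
    rw [this, map_zero]

end Pool.Agent.H42.LI
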