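import Pool.Agent.H42.LI.CX

/-!
# Operators on `C_0(X)`, `X` countable, which are small on disjoint compact open sets
-/

set_option autoImplicit false

namespace Pool.Agent.H42.LI

open Filter Topology

variable {𝕜 : Type*} [RCLike 𝕜]
variable {X : Type*} [TopologicalSpace X]
variable {Z : Type*} [NormedAddCommGroup Z] [NormedSpace 𝕜 Z]

/-- There are functions in the unit ball with pairwise disjoint compact open supports whose images
are bounded away from `0`. -/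
def HasSeq (q : CX X 𝕜 →L[𝕜] Z) : Prop :=
  ∃ (δ : ℝ) (V : ℕ → Set X) (w : ℕ → CX X 𝕜), 0 < δ ∧ (∀ n, IsCompact (V n) ∧ IsOpen (V n)) ∧
    (∀ m n, m ≠ n → Disjoint (V m) (V n)) ∧ (∀ n, ∀ x, x ∉ V n → w n x = 0) ∧
    (∀ n, ‖w n‖ ≤ 1) ∧ ∀ n, δ ≤ ‖q (w n)‖

variable [T2Space X] [LocallyCompactSpace X] [Countable X]

theorem small_of_not_hasSeq {q : CX X 𝕜 →L[𝕜] Z} (hq : ¬ HasSeq q) (𝒩 : Set (Set X))
    (hne : 𝒩.Nonempty) (hopen : ∀ O ∈ 𝒩, IsOpen O)
    (hrem : ∀ O ∈ 𝒩, ∀ W, IsCompact W → IsOpen W → W ⊆ O → O \ W ∈ 𝒩) (ε : ℝ) (hε : 0 < ε) :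
    ∃ O ∈ 𝒩, ∀ f : CX X 𝕜, (∀ x, x ∉ O → f x = 0) → ‖q f‖ ≤ ε * ‖f‖ := by
  classical
  by_contra hcon
  push Not at hcon
  have step : ∀ O : {O : Set X // O ∈ 𝒩}, ∃ (W : Set X) (w : CX X 𝕜), IsCompact W ∧ IsOpen W ∧
      W ⊆ O ∧ (∀ x, x ∉ W → w x = 0) ∧ ‖w‖ ≤ 1 ∧ ε / 2 ≤ ‖q w‖ := by
    rintro ⟨O, hO⟩
    obtain ⟨f, hf0, hf⟩ := hcon O hO
    have hfn : ‖f‖ ≠ 0 := by
      intro h
      have h1 : f = 0 := norm_eq_zero.1 h
      rw [h1, map_zero, norm_zero, norm_zero, mul_zero] at hf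
      exact lt_irrefl _ hf
    set g : CX X 𝕜 := (((‖f‖⁻¹ : ℝ)) : 𝕜) • f with hg
    have hgn : ‖g‖ = 1 := by
      rw [hg, norm_smul, RCLike.norm_ofReal, abs_of_nonneg (by positivity), inv_mul_cancel₀ hfn]
    have hgq : ε < ‖q g‖ := by
      rw [hg, map_smul, norm_smul, RCLike.norm_ofReal, abs_of_nonneg (by positivity)]
      have hpos : 0 < ‖f‖ := lt_of_le_of_ne (norm_nonneg _) (Ne.symm hfn)
      rw [lt_inv_mul_iff₀ hpos, mul_comm]
      exact hf
    have hg0 : ∀ x, x ∉ O → g x = 0 := by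
      intro x hx
      rw [hg, cx_smul_apply, hf0 x hx, mul_zero]
    set η : ℝ := ε / (2 * (‖q‖ + 1)) with hη
    have hη0 : 0 < η := by positivity
    obtain ⟨W, hWc, hWo, hSW, hWO⟩ := exists_co_between (isCompact_ge g hη0) (hopen O hO) (by
      intro x hx
      by_contra hxO
      have hx' : η ≤ ‖g x‖ := hx
      rw [hg0 x hxO, norm_zero] at hx'
      linarith)
    refine ⟨W, cut 𝕜 W g, hWc, hWo, hWO, fun x hx => cut_of_notMem hWc hWo g hx, ?_, ?_⟩
    · refine cx_norm_le zero_le_one fun x => ?_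
      by_cases hx : x ∈ W
      · rw [cut_of_mem hWc hWo g hx, ← hgn]; exact cx_norm_coe_le g x
      · rw [cut_of_notMem hWc hWo g hx, norm_zero]; exact zero_le_one
    · have h1 : ‖g - cut 𝕜 W g‖ ≤ η := by
        refine cx_norm_le hη0.le fun x => ?_
        rw [cx_sub_apply]
        by_cases hx : x ∈ W
        · rw [cut_of_mem hWc hWo g hx, sub_self, norm_zero]; exact hη0.le
        · rw [cut_of_notMem hWc hWo g hx, sub_zero]
          by_contra hlt
          push Not at hlt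
          exact hx (hSW hlt.le)
      have h2 : ‖q (g - cut 𝕜 W g)‖ ≤ ε / 2 := by
        refine ((q.le_opNorm _).trans (mul_le_mul_of_nonneg_left h1 (norm_nonneg _))).trans ?_
        calc ‖q‖ * η ≤ (‖q‖ + 1) * η := by gcongr; linarith
          _ = ε / 2 := by rw [hη]; field_simp
      have h3 : ‖q g‖ ≤ ‖q (cut 𝕜 W g)‖ + ‖q (g - cut 𝕜 W g)‖ := by
        have : q g = q (cut 𝕜 W g) + q (g - cut 𝕜 W g) := by
          rw [← map_add]; congr 1; abel
        rw [this]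
        exact norm_add_le _ _
      linarith
  choose W w hWc hWo hWO hw0 hw1 hqw using step
  obtain ⟨O₀, hO₀⟩ := hne
  let O : ℕ → {O : Set X // O ∈ 𝒩} := fun n => Nat.rec ⟨O₀, hO₀⟩
    (fun _ O => ⟨O.1 \ W O, hrem O.1 O.2 _ (hWc O) (hWo O) (hWO O)⟩) n
  have hOs : ∀ n, (O (n + 1)).1 = (O n).1 \ W (O n) := fun n => rfl
  have hOm : Antitone fun n => (O n).1 := antitone_nat_of_succ_le fun n => by
    rw [hOs]; exact Set.sdiff_subset
  have hdis : ∀ m n, m < n → Disjoint (W (O m)) (W (O n)) := by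
    intro m n hmn
    rw [Set.disjoint_left]
    intro x hxm hxn
    have h1 : x ∈ (O (m + 1)).1 := hOm (show m + 1 ≤ n from hmn) (hWO (O n) hxn)
    rw [hOs] at h1
    exact h1.2 hxm
  refine hq ⟨ε / 2, fun n => W (O n), fun n => w (O n), half_pos hε,
    fun n => ⟨hWc _, hWo _⟩, fun m n hmn => ?_, fun n x hx => hw0 _ x hx, fun n => hw1 _,
    fun n => hqw _⟩
  rcases lt_or_gt_of_ne hmn with h | h
  · exact hdis m n h
  · exact (hdis n m h).symm

/-- An operator on `C_0(X)` which is small on disjoint compact open sets is a limit of finite rank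
operators. -/
theorem exists_finite_rank {q : CX X 𝕜 →L[𝕜] Z} (hq : ¬ HasSeq q) (ε : ℝ) (hε : 0 < ε) :
    ∃ q₀ : CX X 𝕜 →L[𝕜] Z, FiniteDimensional 𝕜 (LinearMap.range (q₀ : CX X 𝕜 →ₗ[𝕜] Z)) ∧
      ∀ f, ‖q f - q₀ f‖ ≤ ε * ‖f‖ := by
  classical
  -- at infinity
  obtain ⟨O, ⟨V₀, hV₀c, hV₀o, hO⟩, hOs⟩ := small_of_not_hasSeq hq
    {O | ∃ V : Set X, IsCompact V ∧ IsOpen V ∧ O = Vᶜ} ⟨∅ᶜ, ∅, isCompact_empty, isOpen_empty, rfl⟩
    (by
      rintro O ⟨V, hVc, -, rfl⟩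
      exact hVc.isClosed.isOpen_compl)
    (by
      rintro O ⟨V, hVc, hVo, rfl⟩ W hWc hWo -
      refine ⟨V ∪ W, hVc.union hWc, hVo.union hWo, ?_⟩
      rw [Set.compl_union, Set.sdiff_eq]) (ε / 2) (half_pos hε)
  subst hO
  -- at the points
  obtain ⟨e, he0, hes⟩ := (Set.countable_univ (α := X)).exists_pos_forall_sum_le
    (show 0 < ε / 4 by positivity)
  have hpt : ∀ x : X, ∃ V : Set X, IsOpen V ∧ x ∈ V ∧
      ∀ f : CX X 𝕜, (∀ y, y ∉ V \ {x} → f y = 0) → ‖q f‖ ≤ e x * ‖f‖ := by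
    intro x
    obtain ⟨O, ⟨V, hVc, hVo, hxV, rfl⟩, hOs⟩ := small_of_not_hasSeq hq
      {O | ∃ V : Set X, IsCompact V ∧ IsOpen V ∧ x ∈ V ∧ O = V \ {x}}
      (by
        obtain ⟨V, h1, h2, h3, -⟩ := exists_co (x := x) isOpen_univ (Set.mem_univ x)
        exact ⟨V \ {x}, V, h1, h2, h3, rfl⟩)
      (by
        rintro O ⟨V, hVc, hVo, hxV, rfl⟩
        exact hVo.sdiff isClosed_singleton)
      (by
        rintro O ⟨V, hVc, hVo, hxV, rfl⟩ W hWc hWo hWO
        refine ⟨V \ W, hVc.diff hWo, hVo.sdiff hWc.isClosed, ⟨hxV, fun h => (hWO h).2 rfl⟩, ?_⟩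
        ext y
        simp only [Set.mem_sdiff, Set.mem_singleton_iff]
        tauto) (e x) (he0 x)
    exact ⟨V, hVo, hxV, hOs⟩
  choose V hVo hxV hVs using hpt
  obtain ⟨t, W, hW, hdis, hcov⟩ := exists_disjoint_cover hV₀c V hVo hxV
  let ev : X → (CX X 𝕜 →L[𝕜] 𝕜) := fun x => LinearMap.mkContinuous
    { toFun := fun f => f x
      map_add' := fun _ _ => rfl
      map_smul' := fun _ _ => rfl } 1 (fun f => by rw [one_mul]; exact cx_norm_coe_le f x)
  have hev : ∀ x f, ev x f = f x := fun x f => rfl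
  let q₀ : CX X 𝕜 →L[𝕜] Z := ∑ x ∈ t, if x ∈ W x then (ev x).smulRight (q (one 𝕜 (W x))) else 0
  have hq₀ : ∀ f, q₀ f = ∑ x ∈ t, (if x ∈ W x then f x else 0) • q (one 𝕜 (W x)) := by
    intro f
    change (∑ x ∈ t, if x ∈ W x then (ev x).smulRight (q (one 𝕜 (W x))) else 0 :
      CX X 𝕜 →L[𝕜] Z) f = _
    rw [ContinuousLinearMap.sum_apply]
    refine Finset.sum_congr rfl fun x _ => ?_
    split_ifs
    · rfl
    · rw [zero_smul]; rfl
  refine ⟨q₀, ?_, fun f => ?_⟩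
  · have hfin : FiniteDimensional 𝕜 (Submodule.span 𝕜 ((t.image fun x => q (one 𝕜 (W x)) :
        Finset Z) : Set Z)) := FiniteDimensional.span_finset 𝕜 _
    refine Submodule.finiteDimensional_of_le (S₂ := Submodule.span 𝕜
      ((t.image fun x => q (one 𝕜 (W x)) : Finset Z) : Set Z)) ?_
    rintro _ ⟨f, rfl⟩
    change q₀ f ∈ _
    rw [hq₀]
    exact Submodule.sum_mem _ fun x hx => Submodule.smul_mem _ _
      (Submodule.subset_span (Finset.mem_coe.2 (Finset.mem_image.2 ⟨x, hx, rfl⟩)))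
  · set h : CX X 𝕜 := f - ∑ x ∈ t, cut 𝕜 (W x) f with hh
    have hsum_mem : ∀ x ∈ t, ∀ y ∈ W x, (∑ x ∈ t, cut 𝕜 (W x) f) y = f y := by
      intro x hx y hy
      rw [cx_sum_apply, Finset.sum_eq_single x]
      · exact cut_of_mem (hW x).1 (hW x).2.1 f hy
      · intro z hz hzx
        refine cut_of_notMem (hW z).1 (hW z).2.1 f fun hyz => ?_
        exact Set.disjoint_left.1 (hdis z hz x hx hzx) hyz hy
      · intro h1; exact absurd hx h1
    have hsum_not : ∀ y, (∀ x ∈ t, y ∉ W x) → (∑ x ∈ t, cut 𝕜 (W x) f) y = 0 := by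
      intro y hy
      rw [cx_sum_apply]
      exact Finset.sum_eq_zero fun x hx => cut_of_notMem (hW x).1 (hW x).2.1 f (hy x hx)
    have hh0 : ∀ y, y ∉ V₀ᶜ → h y = 0 := by
      intro y hy
      rw [Set.notMem_compl_iff] at hy
      have h1 := hcov hy
      simp only [Set.mem_iUnion] at h1
      obtain ⟨x, hx, hyx⟩ := h1
      rw [hh, cx_sub_apply, hsum_mem x hx y hyx, sub_self]
    have hhn : ‖h‖ ≤ ‖f‖ := by
      refine cx_norm_le (norm_nonneg _) fun y => ?_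
      rw [hh, cx_sub_apply]
      by_cases hy : ∃ x ∈ t, y ∈ W x
      · obtain ⟨x, hx, hyx⟩ := hy
        rw [hsum_mem x hx y hyx, sub_self, norm_zero]; exact norm_nonneg _
      · push Not at hy
        rw [hsum_not y hy, sub_zero]; exact cx_norm_coe_le f y
    let g : X → CX X 𝕜 := fun x => cut 𝕜 (W x) f - (if x ∈ W x then f x else 0) • one 𝕜 (W x)
    have hg0 : ∀ x, ∀ y, y ∉ V x \ {x} → g x y = 0 := by
      intro x y hy
      change (cut 𝕜 (W x) f - (if x ∈ W x then f x else 0) • one 𝕜 (W x)) y = 0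
      rw [cx_sub_apply, cx_smul_apply]
      by_cases hyW : y ∈ W x
      · have hyx : y = x := by
          by_contra hne
          exact hy ⟨(hW x).2.2 hyW, hne⟩
        subst hyx
        rw [cut_of_mem (hW y).1 (hW y).2.1 f hyW, one_of_mem (hW y).1 (hW y).2.1 hyW,
          if_pos hyW, mul_one, sub_self]
      · rw [cut_of_notMem (hW x).1 (hW x).2.1 f hyW, one_of_notMem (hW x).1 (hW x).2.1 hyW,
          mul_zero, sub_zero]
    have hgn : ∀ x, ‖g x‖ ≤ 2 * ‖f‖ := by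
      intro x
      refine cx_norm_le (by positivity) fun y => ?_
      change ‖(cut 𝕜 (W x) f - (if x ∈ W x then f x else 0) • one 𝕜 (W x)) y‖ ≤ _
      rw [cx_sub_apply, cx_smul_apply]
      have h1 : ‖(if x ∈ W x then f x else 0 : 𝕜)‖ ≤ ‖f‖ := by
        split_ifs
        · exact cx_norm_coe_le f x
        · rw [norm_zero]; exact norm_nonneg _
      by_cases hyW : y ∈ W x
      · rw [cut_of_mem (hW x).1 (hW x).2.1 f hyW, one_of_mem (hW x).1 (hW x).2.1 hyW, mul_one]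
        refine (norm_sub_le _ _).trans ?_
        have := cx_norm_coe_le f y
        linarith
      · rw [cut_of_notMem (hW x).1 (hW x).2.1 f hyW, one_of_notMem (hW x).1 (hW x).2.1 hyW,
          mul_zero, sub_zero, norm_zero]
        positivity
    have hdec : q f - q₀ f = q h + ∑ x ∈ t, q (g x) := by
      have h1 : ∑ x ∈ t, q (g x) = ∑ x ∈ t, q (cut 𝕜 (W x) f) - q₀ f := by
        rw [hq₀, ← Finset.sum_sub_distrib]
        exact Finset.sum_congr rfl fun x _ => by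
          change q (cut 𝕜 (W x) f - (if x ∈ W x then f x else 0) • one 𝕜 (W x)) = _
          rw [map_sub, map_smul]
      rw [h1, hh, map_sub, map_sum]
      abel
    rw [hdec]
    have h1 : ‖q h‖ ≤ ε / 2 * ‖f‖ := (hOs h hh0).trans
      (mul_le_mul_of_nonneg_left hhn (by positivity))
    have h2 : ‖∑ x ∈ t, q (g x)‖ ≤ ε / 2 * ‖f‖ := by
      calc ‖∑ x ∈ t, q (g x)‖ ≤ ∑ x ∈ t, e x * (2 * ‖f‖) := by
            refine norm_sum_le_of_le _ fun x _ => ?_
            exact (hVs x (g x) (hg0 x)).trans (mul_le_mul_of_nonneg_left (hgn x) (he0 x).le)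
        _ = (∑ x ∈ t, e x) * (2 * ‖f‖) := by rw [Finset.sum_mul]
        _ ≤ (ε / 4) * (2 * ‖f‖) := by
            refine mul_le_mul_of_nonneg_right ?_ (by positivity)
            exact hes t (Set.subset_univ _)
        _ = ε / 2 * ‖f‖ := by ring
    calc _ ≤ ‖q h‖ + ‖∑ x ∈ t, q (g x)‖ := norm_add_le _ _
      _ ≤ ε / 2 * ‖f‖ + ε / 2 * ‖f‖ := add_le_add h1 h2
      _ = ε * ‖f‖ := by ring

omit [T2Space X] [LocallyCompactSpace X] [Countable X] in
/-- If a quotient map is a limit of finite rank operators, the quotient is finite-dimensional. -/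
theorem finite_of_approx {E : Type*} [NormedAddCommGroup E] [NormedSpace 𝕜 E]
    (F : Submodule 𝕜 E) [IsClosed (F : Set E)]
    (h : ∀ ε : ℝ, 0 < ε → ∃ q₀ : E →L[𝕜] (E ⧸ F),
      FiniteDimensional 𝕜 (LinearMap.range (q₀ : E →ₗ[𝕜] (E ⧸ F))) ∧
      ∀ f, ‖F.mkQ f - q₀ f‖ ≤ ε * ‖f‖) : FiniteDimensional 𝕜 (E ⧸ F) := by
  obtain ⟨q₀, hfin, hq₀⟩ := h (1 / 4) (by norm_num)
  set G : Submodule 𝕜 (E ⧸ F) := LinearMap.range (q₀ : E →ₗ[𝕜] (E ⧸ F)) with hG
  by_cases hGt : G = ⊤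
  · rw [hGt] at hfin
    exact (Submodule.topEquiv (R := 𝕜) (M := E ⧸ F)).finiteDimensional
  · exfalso
    have hex : ∃ x, x ∉ G := by
      by_contra hcon
      push Not at hcon
      exact hGt (Submodule.eq_top_iff'.2 hcon)
    have hcl : IsClosed (G : Set (E ⧸ F)) := Submodule.closed_of_finiteDimensional G
    obtain ⟨z, hz, hzG⟩ := riesz_lemma hcl hex (show (1 / 2 : ℝ) < 1 by norm_num)
    have hz0 : 0 < ‖z‖ := by
      rw [norm_pos_iff]
      rintro rfl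
      exact hz G.zero_mem
    obtain ⟨m, hm, hm'⟩ := Submodule.Quotient.norm_mk_lt (S := F) z (half_pos hz0)
    have h1 := hq₀ m
    have h2 : F.mkQ m = z := hm
    rw [h2] at h1
    have h3 := hzG (q₀ m) ⟨m, rfl⟩
    have h4 : (1 / 4 : ℝ) * ‖m‖ ≤ 1 / 4 * (‖z‖ + ‖z‖ / 2) := by gcongr
    linarith

/-- The quotient map by a closed subspace of infinite codimension has the sequence. -/
theorem hasSeq_mkQ (F : Submodule 𝕜 (CX X 𝕜)) [IsClosed (F : Set (CX X 𝕜))]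
    (hF : ¬ FiniteDimensional 𝕜 (CX X 𝕜 ⧸ F)) : HasSeq F.mkQL := by
  by_contra hq
  exact hF (finite_of_approx F fun ε hε => exists_finite_rank hq ε hε)

end Pool.Agent.H42.LI
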