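import Mathlib

/-!
# Extending the partial sum projections of a closed subspace to a finite-dimensional enlargement
-/

set_option autoImplicit false

namespace Pool.Agent.H42.LI

open Filter Topology

variable {𝕜 : Type*} [RCLike 𝕜] {E : Type*} [NormedAddCommGroup E] [NormedSpace 𝕜 E]

/-- Let `P n → 1` on the closed subspace `F`, `‖P n‖ ≤ C`, and let `T` be a finite set. For large
`n` the operator `P n` extends to `F + span T` with norm at most `4 C + 4`, close to the identity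
on `T`. -/
theorem exists_ext_op (F : Submodule 𝕜 E) (hF : IsClosed (F : Set E)) (P : ℕ → F →L[𝕜] F) (C : ℝ)
    (hPC : ∀ n, ‖P n‖ ≤ C) (hPt : ∀ f, Tendsto (fun n => P n f) atTop (𝓝 f)) (T : Finset E)
    (ε : ℝ) (hε : 0 < ε) :
    ∃ n₀, ∀ n ≥ n₀, ∃ R : ↥(F ⊔ Submodule.span 𝕜 (T : Set E)) →L[𝕜] E, ‖R‖ ≤ 4 * C + 4 ∧
      (∀ x : ↥(F ⊔ Submodule.span 𝕜 (T : Set E)), ∀ f : F, (x : E) = f → R x = P n f) ∧
      (∀ x : ↥(F ⊔ Submodule.span 𝕜 (T : Set E)), (x : E) ∈ T → ‖R x - x‖ ≤ ε) ∧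
      ∃ K : Submodule 𝕜 E, FiniteDimensional 𝕜 K ∧ ∀ x, ∃ f : F, R x - (P n f : F) ∈ K := by
  classical
  have hC0 : 0 ≤ C := (norm_nonneg _).trans (hPC 0)
  set H := Submodule.span 𝕜 (T : Set E) with hH
  have hHfin : FiniteDimensional 𝕜 H := FiniteDimensional.span_finset 𝕜 T
  set S := F ⊔ H with hS
  have hFS : F ≤ S := le_sup_left
  have hHS : H ≤ S := le_sup_right
  obtain ⟨π, hπ⟩ := LinearMap.exists_leftInverse_of_injective (Submodule.inclusion hFS)
    (LinearMap.ker_eq_bot.2 (Submodule.inclusion_injective hFS))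
  have hπF : ∀ x : S, ∀ f : F, (x : E) = f → π x = f := by
    intro x f hx
    have h1 : x = Submodule.inclusion hFS f := Subtype.ext hx
    rw [h1]
    exact LinearMap.congr_fun hπ f
  -- the complement
  let κ : S →ₗ[𝕜] E := S.subtype - F.subtype ∘ₗ π
  have hκ : ∀ x : S, κ x = (x : E) - (π x : E) := fun x => rfl
  have hκF : ∀ x : S, (x : E) ∈ F → κ x = 0 := by
    intro x hx
    rw [hκ, hπF x ⟨x, hx⟩ rfl, sub_self]
  let K : Submodule 𝕜 E := LinearMap.range (κ ∘ₗ Submodule.inclusion hHS)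
  have hKfin : FiniteDimensional 𝕜 K := inferInstanceAs (FiniteDimensional 𝕜 (LinearMap.range _))
  have hκK : ∀ x : S, κ x ∈ K := by
    intro x
    obtain ⟨f, hf, h, hh, hx⟩ := Submodule.mem_sup.1 x.2
    refine ⟨⟨h, hh⟩, ?_⟩
    have h1 : x = Submodule.inclusion hFS ⟨f, hf⟩ + Submodule.inclusion hHS ⟨h, hh⟩ :=
      Subtype.ext hx.symm
    rw [h1, map_add, hκF _ hf, zero_add]
    rfl
  have hKF : ∀ k ∈ K, k ∈ F → k = 0 := by
    rintro k ⟨h, rfl⟩ hk
    set x : S := Submodule.inclusion hHS h with hx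
    have hxF : (x : E) ∈ F := by
      have h1 : (x : E) = κ x + π x := by rw [hκ, sub_add_cancel]
      rw [h1]
      exact F.add_mem hk (π x).2
    exact hκF x hxF
  -- the quotient norm on `K`
  have : IsClosed (F : Set E) := hF
  let q : K →ₗ[𝕜] (E ⧸ F) := F.mkQ ∘ₗ K.subtype
  have hqk : LinearMap.ker q = ⊥ := by
    rw [LinearMap.ker_eq_bot']
    intro k hk
    have h1 : (k : E) ∈ F := (Submodule.Quotient.mk_eq_zero F).1 hk
    exact Subtype.ext (hKF k k.2 h1)
  obtain ⟨M, hM, hqM⟩ := LinearMap.exists_antilipschitzWith q hqk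
  have hproper : ProperSpace K := FiniteDimensional.proper_rclike 𝕜 K
  have hqc : Continuous q := LinearMap.continuous_of_finiteDimensional q
  have hcomp : IsCompact {k : K | ‖q k‖ ≤ 1} := by
    refine Metric.isCompact_of_isClosed_isBounded (isClosed_le hqc.norm continuous_const) ?_
    refine (Metric.isBounded_closedBall (x := (0 : K)) (r := M)).subset fun k hk => ?_
    rw [Metric.mem_closedBall]
    have h1 := hqM.le_mul_dist k 0
    rw [map_zero, dist_zero_right (q k)] at h1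
    have hk' : ‖q k‖ ≤ 1 := hk
    calc dist k 0 ≤ M * ‖q k‖ := h1
      _ ≤ M * 1 := by gcongr
      _ = M := mul_one _
  have hrep : ∀ k : K, ‖q k‖ ≤ 1 → ∃ f : F, ‖(k : E) + f‖ ≤ 2 := by
    intro k hk
    obtain ⟨m, hm, hm'⟩ := Submodule.Quotient.norm_mk_lt (S := F) (q k) zero_lt_one
    have h1 : m - k ∈ F := by
      rw [← Submodule.Quotient.eq]
      exact hm
    refine ⟨⟨m - k, h1⟩, ?_⟩
    have h2 : (k : E) + (m - k) = m := by abel
    rw [show ((⟨m - k, h1⟩ : F) : E) = m - k from rfl, h2]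
    linarith
  choose! g hg using hrep
  obtain ⟨t, htS, htf, htc⟩ := finite_cover_balls_of_compact hcomp zero_lt_one
  -- the index
  have hev1 : ∀ᶠ n in atTop, ∀ k ∈ t, ‖P n (g k) - g k‖ ≤ 1 := by
    rw [eventually_all_finite htf]
    intro k _
    have h1 := (tendsto_iff_norm_sub_tendsto_zero.1 (hPt (g k)))
    exact h1.eventually (ge_mem_nhds zero_lt_one)
  have hev2 : ∀ᶠ n in atTop, ∀ e ∈ T, ∀ he : e ∈ S, ‖P n (π ⟨e, he⟩) - π ⟨e, he⟩‖ ≤ ε := by
    have : ∀ᶠ n in atTop, ∀ e ∈ (T : Set E), ∀ he : e ∈ S,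
        ‖P n (π ⟨e, he⟩) - π ⟨e, he⟩‖ ≤ ε := by
      rw [eventually_all_finite T.finite_toSet]
      intro e he
      have heS : e ∈ S := hHS (Submodule.subset_span he)
      have h1 := (tendsto_iff_norm_sub_tendsto_zero.1 (hPt (π ⟨e, heS⟩)))
      filter_upwards [h1.eventually (ge_mem_nhds hε)] with n hn _
      exact hn
    exact this
  obtain ⟨n₀, hn₀⟩ := eventually_atTop.1 (hev1.and hev2)
  refine ⟨n₀, fun n hn => ?_⟩
  obtain ⟨hn1, hn2⟩ := hn₀ n hn
  let R₀ : S →ₗ[𝕜] E := κ + F.subtype ∘ₗ (P n : F →ₗ[𝕜] F) ∘ₗ π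
  have hR₀ : ∀ x, R₀ x = κ x + (P n (π x) : F) := fun x => rfl
  -- the bound on the unit ball
  have hball : ∀ x : S, ‖x‖ ≤ 1 → ‖R₀ x‖ ≤ 4 * C + 4 := by
    intro x hx
    set k : K := ⟨κ x, hκK x⟩ with hk
    have hxk : (x : E) = (π x : E) + (k : E) := by
      rw [hk]
      change (x : E) = (π x : E) + κ x
      rw [hκ]; abel
    have hqk1 : ‖q k‖ ≤ 1 := by
      have h1 : q k = F.mkQ (x : E) := by
        change F.mkQ (k : E) = F.mkQ (x : E)
        rw [hxk, map_add]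
        have : F.mkQ (π x : E) = 0 := (Submodule.Quotient.mk_eq_zero F).2 (π x).2
        rw [this, zero_add]
      rw [h1]
      exact (Submodule.Quotient.norm_mk_le F (x : E)).trans hx
    obtain ⟨i, hi, hki⟩ : ∃ i ∈ t, k ∈ Metric.ball i 1 := by
      have := htc hqk1
      simpa using this
    rw [Metric.mem_ball, dist_eq_norm] at hki
    have hki' : ‖(k : E) - i‖ ≤ 1 := hki.le
    have h2 := hg i (htS hi)
    have h3 := hn1 i hi
    have h4 : ‖π x - g i‖ ≤ 4 := by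
      have h5 : ((π x - g i : F) : E) = (x : E) - ((k : E) - i) - ((i : E) + g i) := by
        rw [hxk, Submodule.coe_sub]; abel
      have h6 : ‖π x - g i‖ = ‖((π x - g i : F) : E)‖ := rfl
      rw [h6, h5]
      calc _ ≤ ‖(x : E) - ((k : E) - i)‖ + ‖(i : E) + g i‖ := norm_sub_le _ _
        _ ≤ (‖(x : E)‖ + ‖(k : E) - i‖) + ‖(i : E) + g i‖ := by gcongr; exact norm_sub_le _ _
        _ ≤ (1 + 1) + 2 := by gcongr; exact hx
        _ = 4 := by norm_num
    have h7 : R₀ x = ((P n (π x - g i) : F) : E) + ((P n (g i) - g i : F) : E) +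
        ((i : E) + g i) + ((k : E) - i) := by
      rw [hR₀, map_sub, Submodule.coe_sub, Submodule.coe_sub, hk]
      abel
    rw [h7]
    have h8 : ‖((P n (π x - g i) : F) : E)‖ ≤ C * 4 :=
      ((P n).le_opNorm _).trans (mul_le_mul (hPC n) h4 (norm_nonneg _) hC0)
    have h9 : ‖((P n (g i) - g i : F) : E)‖ ≤ 1 := h3
    calc _ ≤ ‖((P n (π x - g i) : F) : E)‖ + ‖((P n (g i) - g i : F) : E)‖ +
          ‖(i : E) + g i‖ + ‖(k : E) - i‖ := (norm_add_le _ _).trans
            (add_le_add ((norm_add_le _ _).trans (add_le_add (norm_add_le _ _) le_rfl)) le_rfl)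
      _ ≤ C * 4 + 1 + 2 + 1 := by gcongr
      _ = 4 * C + 4 := by ring
  have hbound : ∀ x : S, ‖R₀ x‖ ≤ (4 * C + 4) * ‖x‖ := by
    intro x
    rcases eq_or_ne x 0 with hx | hx
    · rw [hx, map_zero, norm_zero, norm_zero, mul_zero]
    · have hx' : ‖x‖ ≠ 0 := norm_ne_zero_iff.2 hx
      have h1 := hball (((‖x‖⁻¹ : ℝ) : 𝕜) • x) (by
        rw [norm_smul, RCLike.norm_ofReal, abs_of_nonneg (by positivity), inv_mul_cancel₀ hx'])
      rw [map_smul, norm_smul, RCLike.norm_ofReal, abs_of_nonneg (by positivity)] at h1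
      rwa [inv_mul_le_iff₀ (by positivity), mul_comm] at h1
  refine ⟨R₀.mkContinuous _ hbound, LinearMap.mkContinuous_norm_le _ (by positivity) _, ?_, ?_,
    K, hKfin, fun x => ⟨π x, ?_⟩⟩
  · intro x f hx
    change R₀ x = _
    rw [hR₀, hκF x (by rw [hx]; exact f.2), hπF x f hx, zero_add]
  · intro x hx
    change ‖R₀ x - x‖ ≤ ε
    have h1 : R₀ x - x = ((P n (π x) - π x : F) : E) := by
      rw [hR₀, hκ, Submodule.coe_sub]; abel
    rw [h1]
    exact hn2 x hx x.2
  · change R₀ x - _ ∈ K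
    rw [hR₀, add_sub_cancel_right]
    exact hκK x

end Pool.Agent.H42.LI
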