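import Pool.Agent.H42.NP.Defs
import Pool.Agent.H14.C0.Perturb
import Pool.Agent.H42.LI.ExtOp
import Pool.Agent.H42.LI.Chain

/-!
# Basic sequences of separable `ℒ_∞`-spaces have adapted local structures
-/

set_option autoImplicit false

namespace Pool.Agent.H42.LI

open Filter Topology Pool.Agent.H14.NP Pool.Agent.H14.C0 Pool.Agent.H42.NP

variable {𝕜 : Type*} [RCLike 𝕜] {E : Type*} [NormedAddCommGroup E] [NormedSpace 𝕜 E]

lemma isLInfty_factor (h : IsLInfty 𝕜 E) :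
    ∃ Λ : ℝ, 0 ≤ Λ ∧ ∀ F : Submodule 𝕜 E, FiniteDimensional 𝕜 F →
      ∃ (N : ℕ) (α : F →L[𝕜] (Fin N → 𝕜)) (β : (Fin N → 𝕜) →L[𝕜] E),
        ‖α‖ ≤ Λ ∧ ‖β‖ ≤ Λ ∧ ∀ f : F, β (α f) = f := by
  obtain ⟨Λ, hΛ⟩ := h
  refine ⟨max 1 Λ, le_max_of_le_left zero_le_one, fun F hF => ?_⟩
  obtain ⟨N, α, β, h1, h2⟩ := hΛ F hF
  rcases eq_or_ne α 0 with hα | hα
  · refine ⟨N, α, 0, ?_, ?_, fun f => ?_⟩
    · rw [hα, norm_zero]; exact le_max_of_le_left zero_le_one
    · rw [norm_zero]; exact le_max_of_le_left zero_le_one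
    · rw [← h2 f, hα]
      simp
  · have hn : ‖α‖ ≠ 0 := norm_ne_zero_iff.2 hα
    have hn' : ((‖α‖ : ℝ) : 𝕜) ≠ 0 := by rwa [Ne, RCLike.ofReal_eq_zero]
    refine ⟨N, ((‖α‖ : ℝ) : 𝕜)⁻¹ • α, ((‖α‖ : ℝ) : 𝕜) • β, ?_, ?_, fun f => ?_⟩
    · rw [norm_smul, norm_inv, RCLike.norm_ofReal, abs_of_nonneg (norm_nonneg _),
        inv_mul_cancel₀ hn]
      exact le_max_left _ _
    · rw [norm_smul, RCLike.norm_ofReal, abs_of_nonneg (norm_nonneg _)]
      exact h1.trans (le_max_right _ _)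
    · rw [_root_.smul_apply, _root_.smul_apply, map_smul, smul_smul, mul_inv_cancel₀ hn',
        one_smul, h2]

lemma exists_pi_ext (p : Submodule 𝕜 E) {N : ℕ} (f : p →L[𝕜] (Fin N → 𝕜)) :
    ∃ g : E →L[𝕜] (Fin N → 𝕜), (∀ x : p, g x = f x) ∧ ‖g‖ ≤ ‖f‖ := by
  choose g hg hgn using fun i : Fin N =>
    exists_extension_norm_eq p ((ContinuousLinearMap.proj i).comp f)
  have hgf : ∀ i, ‖g i‖ ≤ ‖f‖ := by
    intro i
    rw [hgn]
    refine ContinuousLinearMap.opNorm_le_bound _ (norm_nonneg _) fun x => ?_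
    exact (norm_le_pi_norm (f x) i).trans (f.le_opNorm x)
  refine ⟨ContinuousLinearMap.pi g, fun x => ?_, ?_⟩
  · ext i
    exact hg i x
  · refine ContinuousLinearMap.opNorm_le_bound _ (norm_nonneg _) fun x => ?_
    refine (pi_norm_le_iff_of_nonneg (by positivity)).2 fun i => ?_
    exact ((g i).le_opNorm x).trans (mul_le_mul_of_nonneg_right (hgf i) (norm_nonneg _))

/-- The extensions of the partial sum operators of a basic sequence. -/
theorem exists_ops [CompleteSpace E] [TopologicalSpace.SeparableSpace E] {y : ℕ → E}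
    (hy : IsBasicSeq 𝕜 y) :
    ∃ (C : ℝ) (S : ℕ → Submodule 𝕜 E) (R : ∀ n, S n →L[𝕜] E) (K : ℕ → Submodule 𝕜 E), 0 ≤ C ∧
      (∀ n, ‖R n‖ ≤ C) ∧ (∀ n, FiniteDimensional 𝕜 (K n)) ∧ (∀ n x, R n x ∈ K n) ∧
      (∀ n i, y i ∈ S n) ∧ (∀ n i (x : S n), (x : E) = y i → R n x = if i ≤ n then y i else 0) ∧
      (∀ w ε, 0 < ε → ∃ e n₁, ‖w - e‖ ≤ ε ∧ ∀ n ≥ n₁, ∃ x : S n, (x : E) = e ∧
        ‖R n x - e‖ ≤ ε) := by
  classical
  set F := cspan 𝕜 y with hFdef
  have hF : IsClosed (F : Set E) := cspan_isClosed y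
  have hcomp : CompleteSpace F := hF.completeSpace_coe
  have hG := isBasis_cspan hy
  obtain ⟨P, CP, hCP0, hPC, hPy, hPt, hPf, hPP⟩ := hG.exists_proj
  let e : ℕ → E := TopologicalSpace.denseSeq E
  let T : ℕ → Finset E := fun k => (Finset.range k).image e
  -- the properties needed
  let Good : ℕ → ℕ → Prop := fun n k => ∃ (S : Submodule 𝕜 E) (R : S →L[𝕜] E)
    (K : Submodule 𝕜 E), F ≤ S ∧ (∀ x ∈ T k, x ∈ S) ∧ ‖R‖ ≤ 4 * CP + 4 ∧
      (∀ x : S, ∀ f : F, (x : E) = f → R x = (P (n + 1) f : F)) ∧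
      (∀ x : S, (x : E) ∈ T k → ‖R x - x‖ ≤ 1 / ((k : ℝ) + 1)) ∧ FiniteDimensional 𝕜 K ∧
      ∀ x, R x ∈ K
  let Y : ℕ → Submodule 𝕜 E := fun n => Submodule.span 𝕜 ((Finset.range n).image y : Finset E)
  have hYf : ∀ n, FiniteDimensional 𝕜 (Y n) := fun n => FiniteDimensional.span_finset 𝕜 _
  have hPY : ∀ n f, ((P n f : F) : E) ∈ Y n := by
    intro n f
    obtain ⟨a, ha⟩ := hPf n f
    rw [ha, Submodule.coe_sum]
    refine Submodule.sum_mem _ fun i hi => ?_
    exact Submodule.smul_mem _ _ (Submodule.subset_span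
      (Finset.mem_coe.2 (Finset.mem_image.2 ⟨i, hi, rfl⟩)))
  have hgood0 : ∀ n, Good n 0 := by
    intro n
    refine ⟨F, F.subtypeL.comp (P (n + 1)), Y (n + 1), le_rfl, ?_, ?_, ?_, ?_, hYf _, ?_⟩
    · intro x hx
      simp [T] at hx
    · refine ContinuousLinearMap.opNorm_le_bound _ (by positivity) fun x => ?_
      have h1 : ‖P (n + 1) x‖ ≤ CP * ‖x‖ :=
        ((P (n + 1)).le_opNorm x).trans (mul_le_mul_of_nonneg_right (hPC _) (norm_nonneg _))
      calc ‖F.subtypeL.comp (P (n + 1)) x‖ = ‖P (n + 1) x‖ := rfl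
        _ ≤ CP * ‖x‖ := h1
        _ ≤ (4 * CP + 4) * ‖x‖ := by
            refine mul_le_mul_of_nonneg_right ?_ (norm_nonneg _)
            linarith
    · intro x f hx
      have : x = f := Subtype.ext hx
      rw [this]; rfl
    · intro x hx
      simp [T] at hx
    · intro x
      exact hPY _ _
  have hgood : ∀ k, ∃ n₀, ∀ n ≥ n₀, Good n k := by
    intro k
    obtain ⟨n₀, hn₀⟩ := exists_ext_op F hF (fun n => P (n + 1)) CP (fun n => hPC _)
      (fun f => (hPt f).comp (tendsto_add_atTop_nat 1)) (T k) (1 / ((k : ℝ) + 1)) (by positivity)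
    refine ⟨n₀, fun n hn => ?_⟩
    obtain ⟨R, hR1, hR2, hR3, K, hK, hRK⟩ := hn₀ n hn
    refine ⟨_, R, K ⊔ Y (n + 1), le_sup_left, fun x hx => ?_, hR1, hR2, hR3, ?_, fun x => ?_⟩
    · exact Submodule.mem_sup_right (Submodule.subset_span (Finset.mem_coe.2 hx))
    · have := hYf (n + 1)
      infer_instance
    · obtain ⟨f, hf⟩ := hRK x
      have h1 : R x = (R x - (P (n + 1) f : F)) + (P (n + 1) f : F) := by abel
      rw [h1]
      exact Submodule.add_mem _ (Submodule.mem_sup_left hf) (Submodule.mem_sup_right (hPY _ _))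
  let k : ℕ → ℕ := fun n => Nat.findGreatest (fun k => ∀ m ≥ n, Good m k) n
  have hk : ∀ n, Good n (k n) := by
    intro n
    have := Nat.findGreatest_spec (P := fun k => ∀ m ≥ n, Good m k) (Nat.zero_le n)
      (fun m _ => hgood0 m)
    exact this n le_rfl
  have hkt : ∀ K, ∃ n₁, ∀ n ≥ n₁, K ≤ k n := by
    intro K
    obtain ⟨n₀, hn₀⟩ := hgood K
    refine ⟨max n₀ K, fun n hn => ?_⟩
    exact Nat.le_findGreatest (le_trans (le_max_right _ _) hn)
      (fun m hm => hn₀ m (le_trans (le_trans (le_max_left _ _) hn) hm))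
  choose S R K hFS hTS hRn hRF hRT hKf hRK using hk
  refine ⟨4 * CP + 4, S, R, K, by positivity, hRn, hKf, hRK, fun n i => hFS n (mem_cspan y i), ?_,
    ?_⟩
  · intro n i x hx
    rw [hRF n x ⟨y i, mem_cspan y i⟩ hx, hPy]
    by_cases hi : i ≤ n
    · rw [if_pos (by omega), if_pos hi]
    · rw [if_neg (by omega), if_neg hi]; rfl
  · intro w ε hε
    obtain ⟨i, hi⟩ := (TopologicalSpace.denseRange_denseSeq E).exists_dist_lt w hε
    obtain ⟨K₁, hK₁⟩ := exists_nat_one_div_lt hε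
    obtain ⟨n₁, hn₁⟩ := hkt (max (i + 1) K₁)
    refine ⟨e i, n₁, ?_, fun n hn => ?_⟩
    · rw [← dist_eq_norm]; exact hi.le
    · have h1 := hn₁ n hn
      have h2 : i < k n := by have := le_max_left (i + 1) K₁; omega
      have h3 : e i ∈ T (k n) := Finset.mem_image.2 ⟨i, Finset.mem_range.2 h2, rfl⟩
      refine ⟨⟨e i, hTS n _ h3⟩, rfl, ?_⟩
      refine (hRT n ⟨e i, hTS n _ h3⟩ h3).trans (le_trans ?_ hK₁.le)
      have h4 : K₁ ≤ k n := le_trans (le_max_right _ _) h1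
      have h5 : (K₁ : ℝ) ≤ (k n : ℝ) := by exact_mod_cast h4
      exact one_div_le_one_div_of_le (by positivity) (by linarith)

/-- A basic sequence of a separable `ℒ_∞`-space has an adapted local structure. -/
theorem exists_loc [CompleteSpace E] [TopologicalSpace.SeparableSpace E] (hL : IsLInfty 𝕜 E)
    {y : ℕ → E} (hy : IsBasicSeq 𝕜 y) :
    ∃ (N : ℕ → ℕ) (a : ∀ n, E →L[𝕜] (Fin (N n) → 𝕜)) (b : ∀ n, (Fin (N n) → 𝕜) →L[𝕜] E)
      (τ : ∀ n m, (Fin (N m) → 𝕜) →L[𝕜] (Fin (N n) → 𝕜)) (C : ℝ), Loc y N a b τ C := by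
  classical
  have hne : ∀ n, y n ≠ 0 := by
    intro n h0
    exact IsBasis.ne_zero (isBasis_cspan hy) n (Subtype.ext h0)
  obtain ⟨C₁, S, R, K, hC₁, hRn, hKf, hRK, hyS, hRy, happ⟩ := exists_ops hy
  obtain ⟨Λ, hΛ, hfac⟩ := isLInfty_factor hL
  choose N' α' β' hα' hβ' hαβ' using hfac
  let next : ℕ → {B : Submodule 𝕜 E // FiniteDimensional 𝕜 B} →
      {B : Submodule 𝕜 E // FiniteDimensional 𝕜 B} := fun n B =>
    ⟨B.1 ⊔ K (n + 1) ⊔ LinearMap.range (β' B.1 B.2 : (Fin (N' B.1 B.2) → 𝕜) →ₗ[𝕜] E), by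
      have h1 := B.2
      have h2 := hKf (n + 1)
      infer_instance⟩
  let B : ℕ → {B : Submodule 𝕜 E // FiniteDimensional 𝕜 B} := fun n =>
    Nat.rec ⟨K 0, hKf 0⟩ (fun n B => next n B) n
  have hB0 : (B 0).1 = K 0 := rfl
  have hBs : ∀ n, (B (n + 1)).1 = (B n).1 ⊔ K (n + 1) ⊔
      LinearMap.range (β' (B n).1 (B n).2 : (Fin (N' (B n).1 (B n).2) → 𝕜) →ₗ[𝕜] E) := fun n => rfl
  have hBm : Monotone fun n => (B n).1 := monotone_nat_of_le_succ fun n => by
    change (B n).1 ≤ (B (n + 1)).1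
    rw [hBs, sup_assoc]; exact le_sup_left
  have hKB : ∀ n, K n ≤ (B n).1 := by
    intro n
    rcases n with _ | n
    · exact le_of_eq hB0.symm
    · rw [hBs]; exact le_sup_of_le_left le_sup_right
  let N : ℕ → ℕ := fun n => N' (B n).1 (B n).2
  let α : ∀ n, (B n).1 →L[𝕜] (Fin (N n) → 𝕜) := fun n => α' (B n).1 (B n).2
  let β : ∀ n, (Fin (N n) → 𝕜) →L[𝕜] E := fun n => β' (B n).1 (B n).2
  have hα : ∀ n, ‖α n‖ ≤ Λ := fun n => hα' _ _
  have hβ : ∀ n, ‖β n‖ ≤ Λ := fun n => hβ' _ _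
  have hβα : ∀ n x, β n (α n x) = x := fun n x => hαβ' _ _ x
  have hβB : ∀ n m, m < n → ∀ s, β m s ∈ (B n).1 := by
    intro n m hmn s
    have h1 : (B (m + 1)).1 ≤ (B n).1 := hBm (show m + 1 ≤ n by omega)
    refine h1 ?_
    rw [hBs]
    exact Submodule.mem_sup_right ⟨s, rfl⟩
  -- the operators
  let Rc : ∀ n, S n →L[𝕜] (B n).1 := fun n => (R n).codRestrict (B n).1 fun x => hKB n (hRK n x)
  have hRc : ∀ n x, ((Rc n x : (B n).1) : E) = R n x := fun n x => rfl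
  have hRcn : ∀ n x, ‖Rc n x‖ ≤ C₁ * ‖x‖ := fun n x =>
    ((R n).le_opNorm x).trans (mul_le_mul_of_nonneg_right (hRn n) (norm_nonneg _))
  choose a haS han using fun n => exists_pi_ext (S n) ((α n).comp (Rc n))
  have haS' : ∀ n (x : S n), a n x = α n (Rc n x) := fun n x => haS n x
  have han' : ∀ n, ‖a n‖ ≤ Λ * C₁ := by
    intro n
    refine (han n).trans (ContinuousLinearMap.opNorm_le_bound _ (by positivity) fun x => ?_)
    change ‖α n (Rc n x)‖ ≤ _
    rw [mul_assoc]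
    exact ((α n).le_opNorm _).trans (mul_le_mul (hα n) (hRcn n x) (norm_nonneg _) hΛ)
  let τ : ∀ n m, (Fin (N m) → 𝕜) →L[𝕜] (Fin (N n) → 𝕜) := fun n m =>
    if h : m < n then (α n).comp ((β m).codRestrict (B n).1 fun s => hβB n m h s) else 0
  have hτ : ∀ n m (h : m < n) s, τ n m s = α n ⟨β m s, hβB n m h s⟩ := by
    intro n m h s
    change (if h : m < n then (α n).comp ((β m).codRestrict (B n).1 fun s => hβB n m h s) else 0)
      s = _
    rw [dif_pos h]
    rfl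
  -- differences
  have hdiff : ∀ n (u : (B n).1) (x : S n) (w : E) (η : ℝ), 0 ≤ η → ‖(u : E) - w‖ ≤ η →
      ‖w - x‖ ≤ η → ‖R n x - x‖ ≤ η → ‖α n u - a n w‖ ≤ Λ * (3 * η) + Λ * C₁ * η := by
    intro n u x w η hη h1 h2 h3
    have h4 : α n u - a n w = α n (u - Rc n x) + a n (x - w) := by
      rw [map_sub, map_sub, haS']; abel
    have h5 : ‖u - Rc n x‖ ≤ 3 * η := by
      have h6 : ((u - Rc n x : (B n).1) : E) = ((u : E) - w) + (w - x) - (R n x - x) := by
        rw [Submodule.coe_sub, hRc]; abel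
      have h7 : ‖u - Rc n x‖ = ‖((u - Rc n x : (B n).1) : E)‖ := rfl
      rw [h7, h6]
      calc _ ≤ ‖((u : E) - w) + (w - x)‖ + ‖R n x - x‖ := norm_sub_le _ _
        _ ≤ (‖(u : E) - w‖ + ‖w - x‖) + ‖R n x - x‖ := by gcongr; exact norm_add_le _ _
        _ ≤ (η + η) + η := by gcongr
        _ = 3 * η := by ring
    rw [h4]
    refine (norm_add_le _ _).trans (add_le_add ?_ ?_)
    · exact ((α n).le_opNorm _).trans (mul_le_mul (hα n) h5 (norm_nonneg _) hΛ)
    · refine ((a n).le_opNorm _).trans (mul_le_mul (han' n) ?_ (norm_nonneg _) (by positivity))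
      rw [norm_sub_rev]; exact h2
  have hlim : ∀ w, Tendsto (fun n => β n (a n w)) atTop (𝓝 w) := by
    intro w
    rw [Metric.tendsto_atTop]
    intro ε hε
    have hD : 0 < Λ * (Λ * C₁) + 3 := by positivity
    obtain ⟨e, n₁, he, hn₁⟩ := happ w (ε / (Λ * (Λ * C₁) + 3)) (by positivity)
    set η := ε / (Λ * (Λ * C₁) + 3) with hη
    have hη0 : 0 < η := by positivity
    refine ⟨n₁, fun n hn => ?_⟩
    obtain ⟨x, hx, hRx⟩ := hn₁ n hn
    rw [dist_eq_norm]
    have h1 : β n (a n w) - w = β n (a n (w - e)) + (R n x - e) - (w - e) := by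
      have h2 : β n (a n e) = R n x := by
        rw [← hx, haS', hβα, hRc]
      rw [map_sub, map_sub, h2]; abel
    rw [h1]
    calc _ ≤ ‖β n (a n (w - e)) + (R n x - e)‖ + ‖w - e‖ := norm_sub_le _ _
      _ ≤ (‖β n (a n (w - e))‖ + ‖R n x - e‖) + ‖w - e‖ := by gcongr; exact norm_add_le _ _
      _ ≤ (Λ * (Λ * C₁ * η) + η) + η := by
          refine add_le_add (add_le_add ?_ hRx) he
          refine ((β n).le_opNorm _).trans (mul_le_mul (hβ n) ?_ (norm_nonneg _) hΛ)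
          exact ((a n).le_opNorm _).trans (mul_le_mul (han' n) he (norm_nonneg _) (by positivity))
      _ = (Λ * (Λ * C₁) + 2) * η := by ring
      _ < (Λ * (Λ * C₁) + 3) * η := by
          refine mul_lt_mul_of_pos_right ?_ hη0
          linarith
      _ = ε := by rw [hη]; field_simp
  refine ⟨N, a, β, τ, Λ * C₁ + Λ * Λ + Λ, ?_⟩
  refine
    { nonneg := by positivity
      a_le := fun n => (han' n).trans (by nlinarith [mul_nonneg hΛ hΛ])
      b_le := fun n => (hβ n).trans (by nlinarith [mul_nonneg hΛ hΛ, mul_nonneg hΛ hC₁])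
      τ_le := fun n m => ?_
      comp := fun n m l hlm hmn s => ?_
      lim := hlim
      τa := fun w ε hε => ?_
      τb := fun j s => ?_
      y_lt := fun n i hni => ?_
      y_gt := fun n i hin => ?_
      y_ne := fun i hi => ?_ }
  · by_cases h : m < n
    · refine ContinuousLinearMap.opNorm_le_bound _ (by positivity) fun s => ?_
      rw [hτ n m h]
      calc _ ≤ Λ * (Λ * ‖s‖) := by
            refine ((α n).le_opNorm _).trans (mul_le_mul (hα n) ?_ (norm_nonneg _) hΛ)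
            exact ((β m).le_opNorm _).trans (mul_le_mul_of_nonneg_right (hβ m) (norm_nonneg _))
        _ ≤ (Λ * C₁ + Λ * Λ + Λ) * ‖s‖ := by
            nlinarith [mul_nonneg (mul_nonneg hΛ hC₁) (norm_nonneg s),
              mul_nonneg hΛ (norm_nonneg s)]
    · have : τ n m = 0 := dif_neg h
      rw [this, norm_zero]; positivity
  · have h1 : l < n := hlm.trans hmn
    rw [hτ n m hmn, hτ m l hlm, hτ n l h1]
    congr 1
    exact Subtype.ext (hβα m _)
  · set D := Λ * 3 + Λ * C₁ + 1 with hD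
    have hDp : 0 < D := by positivity
    obtain ⟨e, n₁, he, hn₁⟩ := happ w (ε / D) (by positivity)
    obtain ⟨J, hJ⟩ := Metric.tendsto_atTop.1 (hlim w) (ε / D) (by positivity)
    refine ⟨max J n₁, fun j hj n hn => ?_⟩
    obtain ⟨x, hx, hRx⟩ := hn₁ n (by have := le_max_right J n₁; omega)
    rw [hτ n j hn]
    refine (hdiff n ⟨β j (a j w), hβB n j hn _⟩ x w (ε / D) (by positivity) ?_ ?_ ?_).trans ?_
    · rw [← dist_eq_norm]
      exact (hJ j (le_trans (le_max_left _ _) hj)).le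
    · rw [hx]; exact he
    · rw [hx]; exact hRx
    · have h1 : Λ * (3 * (ε / D)) + Λ * C₁ * (ε / D) = (D - 1) * (ε / D) := by rw [hD]; ring
      rw [h1]
      calc (D - 1) * (ε / D) ≤ D * (ε / D) := by
            refine mul_le_mul_of_nonneg_right (by linarith) (by positivity)
        _ = ε := by field_simp
  · rw [Metric.tendsto_atTop]
    intro ε hε
    set D := Λ * 3 + Λ * C₁ + 1 with hD
    have hDp : 0 < D := by positivity
    obtain ⟨e, n₁, he, hn₁⟩ := happ (β j s) (ε / D) (by positivity)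
    refine ⟨max (j + 1) n₁, fun n hn => ?_⟩
    obtain ⟨x, hx, hRx⟩ := hn₁ n (by have := le_max_right (j + 1) n₁; omega)
    have hjn : j < n := by have := le_max_left (j + 1) n₁; omega
    rw [dist_zero_right, norm_norm, hτ n j hjn]
    refine lt_of_le_of_lt (hdiff n ⟨β j s, hβB n j hjn _⟩ x (β j s) (ε / D) (by positivity) ?_ ?_
      ?_) ?_
    · change ‖β j s - β j s‖ ≤ _
      rw [sub_self, norm_zero]; positivity
    · rw [hx]; exact he
    · rw [hx]; exact hRx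
    · have h1 : Λ * (3 * (ε / D)) + Λ * C₁ * (ε / D) = (D - 1) * (ε / D) := by rw [hD]; ring
      rw [h1]
      calc (D - 1) * (ε / D) < D * (ε / D) := by
            refine mul_lt_mul_of_pos_right (by linarith) (by positivity)
        _ = ε := by field_simp
  · have h1 : a n (y i) = α n (Rc n ⟨y i, hyS n i⟩) := haS' n ⟨y i, hyS n i⟩
    rw [h1]
    have h2 : Rc n ⟨y i, hyS n i⟩ = 0 := Subtype.ext (by
      rw [hRc, hRy n i _ rfl, if_neg (by omega)]; rfl)
    rw [h2, map_zero]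
  · have hai : ∀ m (him : i ≤ m), ∃ h : y i ∈ (B m).1, a m (y i) = α m ⟨y i, h⟩ := by
      intro m him
      have h1 : a m (y i) = α m (Rc m ⟨y i, hyS m i⟩) := haS' m ⟨y i, hyS m i⟩
      have h2 : R m ⟨y i, hyS m i⟩ = y i := by rw [hRy m i _ rfl, if_pos him]
      have h3 : y i ∈ (B m).1 := by
        rw [← h2]; exact hKB m (hRK m _)
      refine ⟨h3, ?_⟩
      rw [h1]
      congr 1
      exact Subtype.ext h2
    obtain ⟨h1, h2⟩ := hai n hin.le
    obtain ⟨h3, h4⟩ := hai i le_rfl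
    rw [h2, h4, hτ n i hin]
    congr 1
    refine Subtype.ext ?_
    exact (hβα i ⟨y i, h3⟩).symm
  · have h1 : a i (y i) = α i (Rc i ⟨y i, hyS i i⟩) := haS' i ⟨y i, hyS i i⟩
    have h2 : R i ⟨y i, hyS i i⟩ = y i := by rw [hRy i i _ rfl, if_pos le_rfl]
    have h3 : β i (a i (y i)) = y i := by rw [h1, hβα, hRc, h2]
    rw [hi, map_zero] at h3
    exact hne i h3.symm

/-- A basic sequence of a separable `ℒ_∞`-space which lies in the kernel of an operator onto `c_0`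
with a bounded right inverse extends to a basis. -/
theorem extends_of_c0 [CompleteSpace E] [TopologicalSpace.SeparableSpace E] (hL : IsLInfty 𝕜 E)
    {y : ℕ → E} (hy : IsBasicSeq 𝕜 y) (z : c0 𝕜 →L[𝕜] E) (φ : E →L[𝕜] c0 𝕜)
    (hφz : ∀ c, φ (z c) = c) (hφy : ∀ i, φ (y i) = 0) : ExtendsToBasis 𝕜 y := by
  obtain ⟨N, a, b, τ, C, h⟩ := exists_loc hL hy
  exact h.extends z φ hφz hφy

end Pool.Agent.H42.LI
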