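import Pool.Agent.H14.C0.Final
import Pool.Agent.H42.LI.Local
import Pool.Agent.H42.LI.Approx
import Pool.Agent.H42.LI.Exhaust
import Pool.Agent.H42.LI.Compl

/-!
# Basic sequences of `ℒ_∞`-spaces which extend to bases
-/

set_option autoImplicit false

namespace Pool.Agent.H42.LI

open Filter Topology Pool.Agent.H14.NP Pool.Agent.H14.C0 Pool.Agent.H42.NP
open scoped ZeroAtInfty

variable {𝕜 : Type*} [RCLike 𝕜] {E : Type*} [NormedAddCommGroup E] [NormedSpace 𝕜 E]

/-- A sequence with bounded unconditional sums gives an operator on `c_0`. -/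
theorem exists_op_c0 [CompleteSpace E] (w : ℕ → E) (C : ℝ)
    (hw : ∀ (s : Finset ℕ) (a : ℕ → 𝕜), (∀ i, ‖a i‖ ≤ 1) → ‖∑ i ∈ s, a i • w i‖ ≤ C) :
    ∃ z : c0 𝕜 →L[𝕜] E, ∀ j, z (e 𝕜 j) = w j := by
  classical
  have hC : 0 ≤ C := by
    have := hw ∅ 0 (fun i => by simp)
    simpa using this
  have hw' : ∀ (s : Finset ℕ) (a : ℕ → 𝕜) (B : ℝ), 0 < B → (∀ i ∈ s, ‖a i‖ ≤ B) →
      ‖∑ i ∈ s, a i • w i‖ ≤ C * B := by
    intro s a B hB ha
    have h1 := hw s (fun i => if i ∈ s then ((B : ℝ) : 𝕜)⁻¹ * a i else 0) (fun i => by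
      by_cases hi : i ∈ s
      · simp only [if_pos hi]
        rw [norm_mul, norm_inv, RCLike.norm_ofReal, abs_of_pos hB]
        rw [inv_mul_le_iff₀ hB, mul_one]
        exact ha i hi
      · simp only [if_neg hi, norm_zero]
        exact zero_le_one)
    have h2 : ∑ i ∈ s, (if i ∈ s then ((B : ℝ) : 𝕜)⁻¹ * a i else 0) • w i =
        ((B : ℝ) : 𝕜)⁻¹ • ∑ i ∈ s, a i • w i := by
      rw [Finset.smul_sum]
      exact Finset.sum_congr rfl fun i hi => by rw [if_pos hi, mul_smul]
    rw [h2, norm_smul, norm_inv, RCLike.norm_ofReal, abs_of_pos hB, inv_mul_le_iff₀ hB] at h1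
    linarith
  have hcs : ∀ c : c0 𝕜, ∃ x, Tendsto (fun n => ∑ i ∈ Finset.range n, c i • w i) atTop (𝓝 x) := by
    intro c
    refine cauchySeq_tendsto_of_complete ?_
    rw [Metric.cauchySeq_iff']
    intro ε hε
    have h1 := (c0_tendsto c).norm
    rw [norm_zero] at h1
    have hpos : 0 < ε / (2 * (C + 1)) := by positivity
    obtain ⟨N, hN⟩ := eventually_atTop.1 (h1.eventually (gt_mem_nhds hpos))
    refine ⟨N, fun n hn => ?_⟩
    rw [dist_eq_norm, ← Finset.sum_range_add_sum_Ico _ hn, add_sub_cancel_left]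
    refine lt_of_le_of_lt (hw' _ _ _ hpos fun i hi => (hN i (Finset.mem_Ico.1 hi).1).le) ?_
    have h2 : C * (ε / (2 * (C + 1))) = ε * (C / (2 * (C + 1))) := by ring
    rw [h2]
    have h3 : C / (2 * (C + 1)) < 1 := by
      rw [div_lt_one (by positivity)]; linarith
    nlinarith
  choose g hg using hcs
  let z : c0 𝕜 →L[𝕜] E := LinearMap.mkContinuous
    { toFun := g
      map_add' := fun c d => tendsto_nhds_unique (hg (c + d)) (by
        refine ((hg c).add (hg d)).congr fun n => ?_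
        rw [← Finset.sum_add_distrib]
        exact Finset.sum_congr rfl fun i _ => by rw [c0_add_apply, add_smul])
      map_smul' := fun r c => tendsto_nhds_unique (hg (r • c)) (by
        refine ((hg c).const_smul r).congr fun n => ?_
        rw [Finset.smul_sum]
        exact Finset.sum_congr rfl fun i _ => by rw [c0_smul_apply, mul_smul]) } C
    (fun c => by
      change ‖g c‖ ≤ C * ‖c‖
      rcases eq_or_ne c 0 with hc | hc
      · have h0 : g c = 0 := tendsto_nhds_unique (hg c) (by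
          refine tendsto_const_nhds.congr fun n => ?_
          symm
          refine Finset.sum_eq_zero fun i _ => ?_
          rw [hc, c0_zero_apply, zero_smul])
        rw [h0, norm_zero]; positivity
      · exact le_of_tendsto (hg c).norm (Eventually.of_forall fun n =>
          hw' _ _ _ (norm_pos_iff.2 hc) fun i _ => norm_coe_le c i))
  refine ⟨z, fun j => ?_⟩
  refine tendsto_nhds_unique (hg (e 𝕜 j)) ?_
  refine tendsto_const_nhds.congr' ?_
  filter_upwards [eventually_gt_atTop j] with n hn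
  symm
  rw [Finset.sum_eq_single j]
  · change (if j = j then (1 : 𝕜) else 0) • w j = w j
    rw [if_pos rfl, one_smul]
  · intro i _ hij
    change (if i = j then (1 : 𝕜) else 0) • w i = 0
    rw [if_neg hij, zero_smul]
  · intro h
    exact absurd (Finset.mem_range.2 hn) h

/-- Let `E` be a separable `ℒ_∞`-space and `y` a basic sequence in `E`. If there are vectors `w n`
with bounded unconditional sums and with distances from the span of `y` bounded away from `0`,
then `y` extends to a basis of `E`. -/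
theorem extends_of_wuc [CompleteSpace E] [TopologicalSpace.SeparableSpace E]
    (hL : IsLInfty 𝕜 E) {y : ℕ → E} (hy : IsBasicSeq 𝕜 y) (w : ℕ → E) (C δ : ℝ) (hδ : 0 < δ)
    (hw : ∀ (s : Finset ℕ) (a : ℕ → 𝕜), (∀ i, ‖a i‖ ≤ 1) → ‖∑ i ∈ s, a i • w i‖ ≤ C)
    (hwy : ∀ n, ∀ f ∈ Submodule.span 𝕜 (Set.range y), δ ≤ ‖w n - f‖) : ExtendsToBasis 𝕜 y := by
  obtain ⟨z₀, hz₀⟩ := exists_op_c0 w C hw
  have hcl : IsClosed (cspan 𝕜 y : Set E) := cspan_isClosed y
  have hdist : ∀ n, ∀ f ∈ cspan 𝕜 y, δ ≤ ‖w n - f‖ := by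
    intro n f hf
    have h1 : (cspan 𝕜 y : Set E) ⊆ {f | δ ≤ ‖w n - f‖} :=
      closure_minimal (fun f hf => hwy n f hf)
        (isClosed_le continuous_const (continuous_const.sub continuous_id).norm)
    exact h1 hf
  obtain ⟨z, φ, hφz, hφ0⟩ := exists_compl (cspan 𝕜 y).mkQL z₀ δ hδ (fun n => by
    rw [hz₀]
    refine le_of_forall_pos_le_add fun ε hε => ?_
    obtain ⟨m, hm, hm'⟩ := Submodule.Quotient.norm_mk_lt (S := cspan 𝕜 y)
      ((cspan 𝕜 y).mkQL (w n)) hε
    have h1 : w n - m ∈ cspan 𝕜 y := by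
      rw [← Submodule.Quotient.eq]
      exact hm.symm
    have h2 := hdist n _ h1
    rw [sub_sub_cancel] at h2
    linarith)
  refine extends_of_c0 hL hy z φ hφz fun i => hφ0 _ ?_
  exact (Submodule.Quotient.mk_eq_zero (cspan 𝕜 y)).2 (mem_cspan y i)

section

variable {X : Type*} [TopologicalSpace X] [T2Space X] [LocallyCompactSpace X] [Countable X]

theorem extends_cx {y : ℕ → CX X 𝕜} (hy : IsBasicSeq 𝕜 y) : ExtendsToBasis 𝕜 y := by
  classical
  by_cases hfin : FiniteDimensional 𝕜 (CX X 𝕜 ⧸ cspan 𝕜 y)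
  · exact extends_of_finite y hy hfin
  · have hcl : IsClosed (cspan 𝕜 y : Set (CX X 𝕜)) := cspan_isClosed y
    have hsep : TopologicalSpace.SeparableSpace (CX X 𝕜) := separable_cx
    obtain ⟨δ, V, w, hδ, hV, hdis, hw0, hw1, hq⟩ := hasSeq_mkQ (cspan 𝕜 y) hfin
    refine extends_of_wuc isLInfty_cx hy w 1 δ hδ (fun s a ha => ?_) (fun n f hf => ?_)
    · refine cx_norm_le zero_le_one fun x => ?_
      rw [cx_sum_apply]
      by_cases h : ∃ i ∈ s, x ∈ V i
      · obtain ⟨i, hi, hxi⟩ := h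
        rw [Finset.sum_eq_single i]
        · rw [cx_smul_apply, norm_mul]
          exact mul_le_one₀ (ha i) (norm_nonneg _) ((cx_norm_coe_le _ _).trans (hw1 i))
        · intro j _ hji
          rw [cx_smul_apply, hw0 j x (Set.disjoint_left.1 (hdis i j (Ne.symm hji)) hxi), mul_zero]
        · intro h; exact absurd hi h
      · push Not at h
        rw [Finset.sum_eq_zero fun i hi => by rw [cx_smul_apply, hw0 i x (h i hi), mul_zero],
          norm_zero]
        exact zero_le_one
    · have h1 : (cspan 𝕜 y).mkQL (w n) = (cspan 𝕜 y).mkQL (w n - f) := by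
        rw [map_sub, eq_comm, sub_eq_self]
        exact (Submodule.Quotient.mk_eq_zero (cspan 𝕜 y)).2 (Submodule.le_topologicalClosure _ hf)
      have h2 := hq n
      rw [h1] at h2
      exact h2.trans (Submodule.Quotient.norm_mk_le (cspan 𝕜 y) (w n - f))

theorem extends_of_equiv_cx (L : E ≃L[𝕜] C₀(X, 𝕜)) {y : ℕ → E} (hy : IsBasicSeq 𝕜 y) :
    ExtendsToBasis 𝕜 y := by
  let L' : E ≃L[𝕜] CX X 𝕜 := L.trans (cxEquiv X 𝕜).symm
  have h1 := extends_cx (IsBasicSeq.map hy L')
  have h2 := ExtendsToBasis.map h1 L'.symm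
  simpa using h2

end

end Pool.Agent.H42.LI
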